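import Pool.Agent.Helper46.SP.Spec

/-!
# Modules C0 and C2: the formula macros, models of ZF
-/

universe u

namespace Pool.Agent.Helper64.SP

open Pool.Agent.Helper46.SP

section Sat

variable {M : Type*} {E : M → M → Prop} {k : ℕ}

theorem cons0 (x : M) (v : Fin k → M) : (Fin.cons x v : Fin (k + 1) → M) 0 = x := rfl

theorem consS (x : M) (v : Fin k → M) (i : Fin k) :
    (Fin.cons x v : Fin (k + 1) → M) i.succ = v i := rfl

theorem cons1 (x : M) (v : Fin (k + 1) → M) : (Fin.cons x v : Fin (k + 2) → M) 1 = v 0 := rfl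

theorem cons2 (x : M) (v : Fin (k + 2) → M) : (Fin.cons x v : Fin (k + 3) → M) 2 = v 1 := rfl

theorem cons3 (x : M) (v : Fin (k + 3) → M) : (Fin.cons x v : Fin (k + 4) → M) 3 = v 2 := rfl

theorem sat_mem (i j : Fin k) (v : Fin k → M) : Sat M E (.mem i j) v ↔ E (v i) (v j) := Iff.rfl

theorem sat_eq (i j : Fin k) (v : Fin k → M) : Sat M E (.eq i j) v ↔ v i = v j := Iff.rfl

theorem sat_neg (φ : Fml k) (v : Fin k → M) : Sat M E (.neg φ) v ↔ ¬ Sat M E φ v := Iff.rfl

theorem sat_and (φ ψ : Fml k) (v : Fin k → M) :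
    Sat M E (.and φ ψ) v ↔ Sat M E φ v ∧ Sat M E ψ v := Iff.rfl

theorem sat_all (φ : Fml (k + 1)) (v : Fin k → M) :
    Sat M E (.all φ) v ↔ ∀ x, Sat M E φ (Fin.cons x v) := Iff.rfl

theorem sat_imp (φ ψ : Fml k) (v : Fin k → M) :
    Sat M E (.imp φ ψ) v ↔ (Sat M E φ v → Sat M E ψ v) := by
  show ¬ (Sat M E φ v ∧ ¬ Sat M E ψ v) ↔ _
  tauto

theorem sat_or (φ ψ : Fml k) (v : Fin k → M) :
    Sat M E (.or φ ψ) v ↔ (Sat M E φ v ∨ Sat M E ψ v) := by
  show ¬ (¬ Sat M E φ v ∧ ¬ Sat M E ψ v) ↔ _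
  tauto

theorem sat_iff (φ ψ : Fml k) (v : Fin k → M) :
    Sat M E (.iff φ ψ) v ↔ (Sat M E φ v ↔ Sat M E ψ v) := by
  show Sat M E (.imp φ ψ) v ∧ Sat M E (.imp ψ φ) v ↔ _
  rw [sat_imp, sat_imp]
  tauto

theorem sat_ex (φ : Fml (k + 1)) (v : Fin k → M) :
    Sat M E (.ex φ) v ↔ ∃ x, Sat M E φ (Fin.cons x v) := by
  show ¬ (∀ x, ¬ Sat M E φ (Fin.cons x v)) ↔ _
  push Not
  rfl

theorem sat_isPair (x y z : Fin k) (v : Fin k → M) :
    Sat M E (.isPair x y z) v ↔ IsPair E (v x) (v y) (v z) := by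
  simp only [Fml.isPair, sat_all, sat_iff, sat_mem, sat_or, sat_eq, cons0, consS, IsPair]

theorem sat_isOPair (x y z : Fin k) (v : Fin k → M) :
    Sat M E (.isOPair x y z) v ↔ IsOPair E (v x) (v y) (v z) := by
  simp only [Fml.isOPair, sat_ex, sat_and, sat_isPair, cons0, consS, cons1, IsOPair]

theorem sat_relMem (r x y : Fin k) (v : Fin k → M) :
    Sat M E (.relMem r x y) v ↔ RelMem E (v r) (v x) (v y) := by
  simp only [Fml.relMem, sat_ex, sat_and, sat_isOPair, sat_mem, cons0, consS, RelMem]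

theorem sat_isSucc (x s : Fin k) (v : Fin k → M) :
    Sat M E (.isSucc x s) v ↔ IsSucc E (v x) (v s) := by
  simp only [Fml.isSucc, sat_all, sat_iff, sat_mem, sat_or, sat_eq, cons0, consS, IsSucc]

theorem sat_isInductive (w : Fin k) (v : Fin k → M) :
    Sat M E (.isInductive w) v ↔ IsInductive E (v w) := by
  simp only [Fml.isInductive, sat_all, sat_and, sat_ex, sat_neg, sat_imp, sat_mem, sat_isSucc,
    cons0, consS, cons1, IsInductive]

theorem sat_isOmega (w : Fin k) (v : Fin k → M) :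
    Sat M E (.isOmega w) v ↔ IsOmega E (v w) := by
  simp only [Fml.isOmega, sat_all, sat_and, sat_imp, sat_mem, sat_isInductive,
    cons0, consS, cons1, IsOmega]

theorem sat_isReals (r : Fin k) (v : Fin k → M) :
    Sat M E (.isReals r) v ↔ IsReals E (v r) := by
  simp only [Fml.isReals, sat_all, sat_and, sat_ex, sat_iff, sat_imp, sat_mem, sat_isOmega,
    cons0, consS, cons1, cons2, IsReals]

theorem sat_isEquivOn (a e : Fin k) (v : Fin k → M) :
    Sat M E (.isEquivOn a e) v ↔ IsEquivOn E (v a) (v e) := by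
  simp only [Fml.isEquivOn, sat_all, sat_and, sat_imp, sat_mem, sat_relMem,
    cons0, consS, cons1, cons2, IsEquivOn]

theorem sat_isTransversal (a e t : Fin k) (v : Fin k → M) :
    Sat M E (.isTransversal a e t) v ↔ IsTransversal E (v a) (v e) (v t) := by
  simp only [Fml.isTransversal, sat_all, sat_and, sat_imp, sat_mem, sat_relMem, sat_ex, sat_eq,
    cons0, consS, cons1, cons2, IsTransversal, ExistsUnique]

theorem sat_isWellOrderOf (a w : Fin k) (v : Fin k → M) :
    Sat M E (.isWellOrderOf a w) v ↔ IsWellOrderOf E (v a) (v w) := by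
  simp only [Fml.isWellOrderOf, sat_all, sat_and, sat_imp, sat_neg, sat_or, sat_mem, sat_relMem,
    sat_ex, sat_eq, cons0, consS, cons1, cons2, IsWellOrderOf]

theorem sat_isDCSeq (a r w f : Fin k) (v : Fin k → M) :
    Sat M E (.isDCSeq a r w f) v ↔ IsOmega E (v w) ∧
      (∀ n, E n (v w) → ∃! x, RelMem E (v f) n x) ∧
      (∀ n x, E n (v w) → RelMem E (v f) n x → E x (v a)) ∧
      ∀ n s x y, E n (v w) → IsSucc E n s → RelMem E (v f) n x → RelMem E (v f) s y →
        RelMem E (v r) x y := by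
  simp only [Fml.isDCSeq, sat_all, sat_and, sat_imp, sat_mem, sat_relMem, sat_ex, sat_eq,
    sat_isOmega, sat_isSucc, cons0, consS, cons1, cons2, cons3, ExistsUnique]

/-- renaming -/
theorem sat_ren {k m : ℕ} (φ : Fml k) (f : Fin k → Fin m) (v : Fin m → M) :
    Sat M E (Fml.ren φ f) v ↔ Sat M E φ (v ∘ f) := by
  induction φ generalizing m with
  | mem i j => exact Iff.rfl
  | eq i j => exact Iff.rfl
  | neg φ ih => exact not_congr (ih f v)
  | and φ ψ ih1 ih2 => exact and_congr (ih1 f v) (ih2 f v)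
  | all φ ih =>
    refine forall_congr' fun x => ?_
    rw [ih]
    have h : (Fin.cons x v : Fin (m + 1) → M) ∘ Fml.liftR f = Fin.cons x (v ∘ f) := by
      funext i
      refine Fin.cases ?_ (fun i => ?_) i
      · rfl
      · rfl
    rw [h]

end Sat

/-- module `C0` -/
theorem st_macros : ST_macros.{u} := by
  intro M E
  refine ⟨?_, ?_, ?_⟩
  · simp only [Fml.spr, sat_all, sat_imp, sat_isReals, sat_isEquivOn, sat_ex, sat_isTransversal,
      cons0, cons1, cons2, SPR]
  · simp only [Fml.wor, sat_and, sat_ex, sat_isReals, sat_isWellOrderOf, cons0, cons1, WOR]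
  · simp only [Fml.dc, sat_all, sat_imp, sat_and, sat_ex, sat_mem, sat_relMem, sat_isDCSeq,
      cons0, cons1, cons2, cons3, DC]

/-- module `C0'` -/
theorem st_satZF : ST_satZF.{u} := by
  intro M E h1 h2 h3 h4 h5 h6 h7 h8
  simp only [Fml.axExt, sat_all, sat_imp, sat_iff, sat_mem, sat_eq, cons0, cons1, cons2] at h1
  simp only [Fml.axPair, sat_all, sat_ex, sat_isPair, cons0, cons1, cons2] at h2
  simp only [Fml.axUnion, sat_all, sat_ex, sat_iff, sat_and, sat_mem, cons0, cons1, cons2,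
    cons3] at h3
  simp only [Fml.axPower, sat_all, sat_ex, sat_iff, sat_imp, sat_mem, cons0, cons1, cons2,
    cons3] at h4
  simp only [Fml.axInf, sat_ex, sat_isInductive, cons0] at h5
  simp only [Fml.axFound, sat_all, sat_ex, sat_imp, sat_and, sat_neg, sat_mem, cons0, cons1,
    cons2] at h6
  refine ⟨h1, h2, h3, h4, h5, h6, ?_, ?_⟩
  · intro k φ v a
    have h := h7 k φ (Fin.cons a v)
    simp only [Fml.axSep, sat_all, sat_ex, sat_iff, sat_and, sat_mem, sat_ren, cons0, cons1,
      cons2] at h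
    obtain ⟨b, hb⟩ := h
    refine ⟨b, fun x => ?_⟩
    rw [hb x]
    have e : (Fin.cons x (Fin.cons b (Fin.cons a v : Fin (k + 1) → M) : Fin (k + 2) → M) :
        Fin (k + 3) → M) ∘ (Fin.cons 0 fun i => i.succ.succ.succ : Fin (k + 1) → Fin (k + 3)) =
        (Fin.cons x v : Fin (k + 1) → M) := by
      funext i
      refine Fin.cases ?_ (fun i => ?_) i
      · rfl
      · rfl
    rw [e]
  · intro k φ v a hfun
    have h := h8 k φ (Fin.cons a v)
    simp only [Fml.axRepl, sat_all, sat_ex, sat_iff, sat_imp, sat_and, sat_mem, sat_eq, sat_ren,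
      cons0, cons1, cons2, cons3] at h
    obtain ⟨b, hb⟩ := h fun x hx => by
      obtain ⟨y, hy1, hy2⟩ := hfun x hx
      refine ⟨y, ?_, fun y' hy' => hy2 y' ?_⟩
      · have e : (Fin.cons y (Fin.cons x (Fin.cons a v : Fin (k + 1) → M) : Fin (k + 2) → M) :
            Fin (k + 3) → M) ∘ (Fin.cons 1 (Fin.cons 0 fun i => i.succ.succ.succ :
              Fin (k + 1) → Fin (k + 3)) : Fin (k + 2) → Fin (k + 3)) =
            (Fin.cons x (Fin.cons y v : Fin (k + 1) → M) : Fin (k + 2) → M) := by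
          funext i
          refine Fin.cases ?_ (fun i => ?_) i
          · rfl
          · refine Fin.cases ?_ (fun i => ?_) i
            · rfl
            · rfl
        rw [e]
        exact hy1
      · have e : (Fin.cons y' (Fin.cons y (Fin.cons x (Fin.cons a v : Fin (k + 1) → M) :
            Fin (k + 2) → M) : Fin (k + 3) → M) : Fin (k + 4) → M) ∘
            (Fin.cons 2 (Fin.cons 0 fun i => i.succ.succ.succ.succ :
              Fin (k + 1) → Fin (k + 4)) : Fin (k + 2) → Fin (k + 4)) =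
            (Fin.cons x (Fin.cons y' v : Fin (k + 1) → M) : Fin (k + 2) → M) := by
          funext i
          refine Fin.cases ?_ (fun i => ?_) i
          · rfl
          · refine Fin.cases ?_ (fun i => ?_) i
            · rfl
            · rfl
        rwa [e] at hy'
    refine ⟨b, fun y => ?_⟩
    rw [hb y]
    refine exists_congr fun x => and_congr_right fun _ => ?_
    have e : (Fin.cons x (Fin.cons y (Fin.cons b (Fin.cons a v : Fin (k + 1) → M) :
        Fin (k + 2) → M) : Fin (k + 3) → M) : Fin (k + 4) → M) ∘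
        (Fin.cons 0 (Fin.cons 1 fun i => i.succ.succ.succ.succ :
          Fin (k + 1) → Fin (k + 4)) : Fin (k + 2) → Fin (k + 4)) =
        (Fin.cons x (Fin.cons y v : Fin (k + 1) → M) : Fin (k + 2) → M) := by
      funext i
      refine Fin.cases ?_ (fun i => ?_) i
      · rfl
      · refine Fin.cases ?_ (fun i => ?_) i
        · rfl
        · rfl
    rw [e]

/-- module `C2` -/
theorem st_model (hH : ST_henkin.{u}) (hZ : ST_forcesZF.{u}) (hS : ST_satZF.{0}) :
    ST_model.{u} := by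
  intro P G _ _ _ _ S p
  obtain ⟨M, E, hM⟩ := hH P G S p
  have hF := hZ P G S
  have h0 : ∀ φ : Fml 0, S.Forces φ Fin.elim0 p → Sat M E φ Fin.elim0 := by
    intro φ hφ
    refine hM 0 φ (fun v _ => ?_) _
    have : v = Fin.elim0 := Subsingleton.elim _ _
    rwa [this]
  refine ⟨M, E, hS M E (h0 _ (hF.ext p)) (h0 _ (hF.pair p)) (h0 _ (hF.union p))
    (h0 _ (hF.power p)) (h0 _ (hF.inf p)) (h0 _ (hF.found p))
    (fun k φ w => hM _ _ (fun v hv => hF.sep k φ v p hv) w)
    (fun k φ w => hM _ _ (fun v hv => hF.repl k φ v p hv) w), h0⟩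

end Pool.Agent.Helper64.SP
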