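import Pool.Agent.Helper46.SP.Spec

/-!
# Modules B4b and B4c: power set, separation and replacement are forced
-/

universe u

namespace Pool.Agent.Helper64.SP

open Pool.Agent.Helper46.SP Name

variable {P G : Type u} [Preorder P] [OrderTop P] [Group G] [MulAction G P]

/-! ### the action -/

omit [OrderTop P] in
theorem act_one (a : Name P) : act (1 : G) a = a := by
  induction a with
  | mk α A B ih =>
    show Name.mk α (fun i => act (1 : G) (A i)) (fun i => (1 : G) • B i) = _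
    congr 1
    · funext i
      exact ih i
    · funext i
      exact one_smul G (B i)

omit [OrderTop P] in
theorem act_mul (g h : G) (a : Name P) : act g (act h a) = act (g * h) a := by
  induction a with
  | mk α A B ih =>
    show Name.mk α (fun i => act g (act h (A i))) (fun i => g • h • B i) =
      Name.mk α (fun i => act (g * h) (A i)) (fun i => (g * h) • B i)
    congr 1
    · funext i
      exact ih i
    · funext i
      exact (mul_smul g h (B i)).symm

omit [OrderTop P] in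
theorem act_inv (g : G) (a : Name P) : act g⁻¹ (act g a) = a := by
  rw [act_mul, inv_mul_cancel, act_one]

omit [OrderTop P] in
theorem act_inv' (g : G) (a : Name P) : act g (act g⁻¹ a) = a := by
  rw [act_mul, mul_inv_cancel, act_one]

/-! ### renaming -/

theorem forces_ren (S : SymSys P G) {k m : ℕ} (φ : Fml k) (f : Fin k → Fin m)
    (v : Fin m → Name P) (p : P) : S.Forces (Fml.ren φ f) v p ↔ S.Forces φ (v ∘ f) p := by
  induction φ generalizing m p with
  | mem i j => exact Iff.rfl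
  | eq i j => exact Iff.rfl
  | neg φ ih => exact forall_congr' fun q => imp_congr_right fun _ => not_congr (ih f v q)
  | and φ ψ ih1 ih2 => exact and_congr (ih1 f v p) (ih2 f v p)
  | all φ ih =>
    refine forall_congr' fun x => imp_congr_right fun _ => ?_
    rw [ih]
    have h : (Fin.cons x v : Fin (m + 1) → Name P) ∘ Fml.liftR f = Fin.cons x (v ∘ f) := by
      funext i
      refine Fin.cases ?_ (fun i => ?_) i
      · rfl
      · rfl
    rw [h]

section facts

variable {S : SymSys P G}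

theorem mem_act (hF : ForcesFacts S) {a b : Name P} {p : P} (g : G) (h : FMem a b p) :
    FMem (act g a) (act g b) (g • p) :=
  hF.act (Fml.mem (0 : Fin 2) 1) (Fin.cons a (Fin.cons b Fin.elim0)) p g h

theorem eq_act (hF : ForcesFacts S) {a b : Name P} {p : P} (g : G) (h : FEq a b p) :
    FEq (act g a) (act g b) (g • p) :=
  hF.act (Fml.eq (0 : Fin 2) 1) (Fin.cons a (Fin.cons b Fin.elim0)) p g h

theorem forces_cons_act (hF : ForcesFacts S) {k : ℕ} (φ : Fml (k + 1)) (x : Name P)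
    (v : Fin k → Name P) (p : P) (g : G) (h : S.Forces φ (Fin.cons x v) p) :
    S.Forces φ (Fin.cons (act g x) fun i => act g (v i)) (g • p) := by
  have h1 := hF.act φ (Fin.cons x v) p g h
  have h2 : (fun i => act g ((Fin.cons x v : Fin (k + 1) → Name P) i)) =
      (Fin.cons (act g x) fun i => act g (v i)) := by
    funext i
    refine Fin.cases ?_ (fun i => ?_) i
    · rfl
    · rfl
  rwa [h2] at h1

theorem forces_cons_congr (hB : BasicEq P) (hF : ForcesFacts S) {k : ℕ} (φ : Fml (k + 1))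
    {x x' : Name P} (v : Fin k → Name P) {p : P} (h : FEq x x' p)
    (h' : S.Forces φ (Fin.cons x v) p) : S.Forces φ (Fin.cons x' v) p := by
  refine hF.congr φ _ _ p (fun i => ?_) h'
  refine Fin.cases ?_ (fun i => ?_) i
  · exact h
  · exact hB.refl _ _

/-- a criterion for symmetry -/
theorem isHS_of (hB : BasicEq P) (hF : ForcesFacts S) {α : Type u} {A : α → Name P} {B : α → P}
    (hA : ∀ i, S.IsHS (A i)) {H : Subgroup G} (hH : H ∈ S.F)
    (h : ∀ g ∈ H, ∀ i, FMem (act g (A i)) (Name.mk α A B) (g • B i)) :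
    S.IsHS (Name.mk α A B) := by
  have key : ∀ g ∈ H, ∀ (x : Name P) (q : P), FMem x (Name.mk α A B) q →
      FMem (act g x) (Name.mk α A B) (g • q) := by
    intro g hg x q hx
    refine hB.memDense _ _ _ fun q' hq' => ?_
    have h1 : g⁻¹ • q' ≤ q := by
      have := S.smul_le g⁻¹ _ _ hq'
      rwa [inv_smul_smul] at this
    obtain ⟨r, hr, i, hi, hxi⟩ := hx _ h1
    refine ⟨g • r, ?_, ?_⟩
    · have := S.smul_le g _ _ hr
      rwa [smul_inv_smul] at this
    · refine hB.memCongr _ _ _ _ _ (hB.symm _ _ _ (eq_act hF g hxi)) (hB.refl _ _) ?_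
      exact hB.memMono _ _ _ _ (h g hg i) (S.smul_le g _ _ hi)
  refine ⟨hA, H, hH, fun g hg => ?_⟩
  refine hB.ext _ _ _ fun x q _ => ⟨fun hx => ?_, fun hx => ?_⟩
  · have h1 := mem_act hF g⁻¹ hx
    rw [act_inv] at h1
    have h2 := key g hg _ _ h1
    rwa [act_inv', smul_inv_smul] at h2
  · have h1 := key g⁻¹ (H.inv_mem hg) _ _ hx
    have h2 := mem_act hF g h1
    rwa [act_inv', smul_inv_smul] at h2

theorem isHS_sym {a : Name P} (h : S.IsHS a) : S.IsSym a := by
  cases a with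
  | mk α A B => exact h.2

/-- common stabilizers -/
theorem exists_common_sym {k : ℕ} (v : Fin k → Name P) (hv : ∀ i, S.IsHS (v i)) :
    ∃ H ∈ S.F, ∀ g ∈ H, ∀ i, FEq (act g (v i)) (v i) ⊤ := by
  induction k with
  | zero => exact ⟨⊤, S.top_mem, fun g _ i => i.elim0⟩
  | succ k ih =>
    obtain ⟨H, hH, h1⟩ := ih (fun i => v i.succ) fun i => hv i.succ
    obtain ⟨K, hK, h2⟩ := isHS_sym (hv 0)
    refine ⟨H ⊓ K, S.inf_mem H hH K hK, fun g hg i => ?_⟩
    refine Fin.cases ?_ (fun i => ?_) i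
    · exact h2 g hg.2
    · exact h1 g hg.1 i

/-! ### separation -/

/-- the name of `{x ∈ a : φ(x, v)}` -/
def sepName (S : SymSys P G) {k : ℕ} (φ : Fml (k + 1)) (v : Fin k → Name P) :
    Name P → Name P
  | Name.mk α A B => Name.mk {t : α × P // t.2 ≤ B t.1 ∧ S.Forces φ (Fin.cons (A t.1) v) t.2}
      (fun t => A t.1.1) (fun t => t.1.2)

theorem mem_sepName (hB : BasicEq P) (hF : ForcesFacts S) {k : ℕ} (φ : Fml (k + 1))
    (v : Fin k → Name P) (a x : Name P) (q : P) :
    FMem x (sepName S φ v a) q ↔ FMem x a q ∧ S.Forces φ (Fin.cons x v) q := by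
  cases a with
  | mk α A B =>
    constructor
    · intro h
      refine ⟨fun q' hq' => ?_, hF.dense _ _ _ fun q' hq' => ?_⟩
      · obtain ⟨r, hr, t, ht, hx⟩ := h q' hq'
        exact ⟨r, hr, t.1.1, ht.trans t.2.1, hx⟩
      · obtain ⟨r, hr, t, ht, hx⟩ := h q' hq'
        exact ⟨r, hr, forces_cons_congr hB hF φ v (hB.symm _ _ _ hx)
          (hF.mono _ _ _ _ t.2.2 ht)⟩
    · rintro ⟨h1, h2⟩ q' hq'
      obtain ⟨r, hr, i, hi, hx⟩ := h1 q' hq'
      exact ⟨r, hr, ⟨(i, r), hi, forces_cons_congr hB hF φ v hx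
        (hF.mono _ _ _ _ h2 (hr.trans hq'))⟩, le_rfl, hx⟩

theorem isHS_sepName (hB : BasicEq P) (hF : ForcesFacts S) {k : ℕ} (φ : Fml (k + 1))
    (v : Fin k → Name P) (hv : ∀ i, S.IsHS (v i)) (a : Name P) (ha : S.IsHS a) :
    S.IsHS (sepName S φ v a) := by
  obtain ⟨H, hH, h1⟩ := exists_common_sym v hv
  obtain ⟨K, hK, h2⟩ := isHS_sym ha
  have hmem := mem_sepName hB hF φ v a
  cases a with
  | mk α A B =>
    refine isHS_of hB hF (fun t => ha.1 t.1.1) (S.inf_mem H hH K hK) fun g hg t => ?_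
    refine (hmem _ _).mpr ⟨?_, ?_⟩
    · have h3 : FMem (A t.1.1) (Name.mk α A B) t.1.2 := hB.elem α A B _ _ t.2.1
      refine hB.memCongr _ _ _ _ _ (hB.refl _ _) ?_ (mem_act hF g h3)
      exact hB.mono _ _ _ _ (h2 g hg.2) le_top
    · have h3 := forces_cons_act hF φ (A t.1.1) v t.1.2 g t.2.2
      refine hF.congr φ _ _ _ (fun i => ?_) h3
      refine Fin.cases ?_ (fun i => ?_) i
      · exact hB.refl _ _
      · exact hB.mono _ _ _ _ (h1 g hg.1 i) le_top

theorem forces_sep (hB : BasicEq P) (hF : ForcesFacts S) (k : ℕ) (φ : Fml (k + 1))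
    (v : Fin (k + 1) → Name P) (p : P) (hv : ∀ i, S.IsHS (v i)) :
    S.Forces (Fml.axSep φ) v p := by
  have hv' : ∀ i : Fin k, S.IsHS (v i.succ) := fun i => hv i.succ
  unfold Fml.axSep
  rw [hF.ex]
  intro q _
  refine ⟨q, le_rfl, sepName S φ (fun i => v i.succ) (v 0), isHS_sepName hB hF φ _ hv' _ (hv 0),
    fun x _ => ?_⟩
  rw [hF.iff]
  intro r _
  have h1 := mem_sepName hB hF φ (fun i => v i.succ) (v 0) x r
  have h2 : ∀ (b x : Name P), (Fin.cons x (Fin.cons b v : Fin (k + 2) → Name P) :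
      Fin (k + 3) → Name P) ∘ (Fin.cons 0 fun i => i.succ.succ.succ : Fin (k + 1) → Fin (k + 3)) =
      Fin.cons x fun i => v i.succ := by
    intro b x
    funext i
    refine Fin.cases ?_ (fun i => ?_) i
    · rfl
    · rfl
  have h3 : ∀ b : Name P, S.Forces (Fml.ren φ (Fin.cons 0 fun i => i.succ.succ.succ))
      (Fin.cons x (Fin.cons b v : Fin (k + 2) → Name P)) r ↔
      S.Forces φ (Fin.cons x fun i => v i.succ) r := by
    intro b
    rw [forces_ren, h2]
  exact h1.trans (and_congr_right fun _ => (h3 _).symm)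

/-! ### power set -/

/-- the name of the power set -/
def powName (S : SymSys P G) : Name P → Name P
  | Name.mk α A B => Name.mk {s : α → Set P //
      S.IsHS (Name.mk {t : α × P // t.2 ≤ B t.1 ∧ t.2 ∈ s t.1} (fun t => A t.1.1) fun t => t.1.2)}
      (fun s => Name.mk {t : α × P // t.2 ≤ B t.1 ∧ t.2 ∈ s.1 t.1} (fun t => A t.1.1)
        fun t => t.1.2) (fun _ => ⊤)

theorem mem_powName_of (hB : BasicEq P) (hF : ForcesFacts S) (a x : Name P) (ha : S.IsHS a)
    (hx : S.IsHS x) (q : P)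
    (h : ∀ z, S.IsHS z → ∀ r ≤ q, FMem z x r → FMem z a r) : FMem x (powName S a) q := by
  have h1 := mem_sepName hB hF (S := S) (Fml.mem (0 : Fin 2) 1)
    (Fin.cons x Fin.elim0 : Fin 1 → Name P) a
  have h2 : S.IsHS (sepName S (Fml.mem (0 : Fin 2) 1) (Fin.cons x Fin.elim0 : Fin 1 → Name P) a) :=
    isHS_sepName hB hF _ _ (fun i => by
      refine Fin.cases ?_ (fun i => ?_) i
      · exact hx
      · exact i.elim0) a ha
  have h3 : FEq x (sepName S (Fml.mem (0 : Fin 2) 1) (Fin.cons x Fin.elim0 : Fin 1 → Name P) a) q := by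
    refine hF.ext _ _ _ hx h2 fun z hz r hr => ?_
    rw [h1]
    exact ⟨fun h4 => ⟨h z hz r hr h4, h4⟩, fun h4 => h4.2⟩
  cases a with
  | mk α A B =>
    intro q' hq'
    exact ⟨q', le_rfl, ⟨fun i => {r | FMem (A i) x r}, h2⟩, le_top, hB.mono _ _ _ _ h3 hq'⟩

theorem of_mem_powName (hB : BasicEq P) (a x : Name P) (q : P)
    (h : FMem x (powName S a) q) (z : Name P) (r : P) (hr : r ≤ q) (hz : FMem z x r) :
    FMem z a r := by
  cases a with
  | mk α A B =>
    refine hB.memDense _ _ _ fun r' hr' => ?_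
    obtain ⟨r₁, h1, s, -, hs⟩ := h r' (hr'.trans hr)
    refine ⟨r₁, h1, ?_⟩
    have h2 := hB.memCongr _ _ _ _ _ (hB.refl z _) hs (hB.memMono _ _ _ _ hz (h1.trans hr'))
    intro r₂ h3
    obtain ⟨r₃, h4, t, h5, h6⟩ := h2 r₂ h3
    exact ⟨r₃, h4, t.1.1, h5.trans t.2.1, h6⟩

theorem isHS_powName (hB : BasicEq P) (hF : ForcesFacts S) (a : Name P) (ha : S.IsHS a) :
    S.IsHS (powName S a) := by
  obtain ⟨H, hH, h1⟩ := isHS_sym ha
  have hmem := mem_powName_of hB hF a
  cases a with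
  | mk α A B =>
    refine isHS_of hB hF (fun s => s.2) hH fun g hg s => ?_
    refine hmem _ ha (hF.hsAct _ g s.2) _ fun z hz r hr h2 => ?_
    have h3 := mem_act hF g⁻¹ h2
    rw [act_inv] at h3
    have h4 : FMem (act g⁻¹ z) (Name.mk α A B) (g⁻¹ • r) := by
      intro r₂ h5
      obtain ⟨r₃, h6, t, h7, h8⟩ := h3 r₂ h5
      exact ⟨r₃, h6, t.1.1, h7.trans t.2.1, h8⟩
    have h5 := mem_act hF g h4
    rw [act_inv', smul_inv_smul] at h5
    exact hB.memCongr _ _ _ _ _ (hB.refl _ _) (hB.mono _ _ _ _ (h1 g hg) le_top) h5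

theorem forces_power (hB : BasicEq P) (hF : ForcesFacts S) (p : P) :
    S.Forces Fml.axPower Fin.elim0 p := by
  intro a ha
  refine (hF.ex _ _ _).mpr fun q _ => ⟨q, le_rfl, powName S a, isHS_powName hB hF a ha,
    fun x hx => ?_⟩
  rw [hF.iff]
  intro r _
  constructor
  · intro h z _
    rw [hF.imp]
    intro r' hr' hz
    exact of_mem_powName hB a x r h z r' hr' hz
  · intro h
    refine mem_powName_of hB hF a x ha hx r fun z hz r' hr' hzx => ?_
    have h1 := h z hz
    rw [hF.imp] at h1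
    exact h1 r' hr' hzx

/-! ### replacement -/

theorem isHS_empty (hB : BasicEq P) (hF : ForcesFacts S) :
    S.IsHS (Name.mk PEmpty (fun i => i.elim) (fun i => i.elim) : Name P) :=
  isHS_of hB hF (fun i => i.elim) S.top_mem fun _ _ i => i.elim

theorem forces_repl (hB : BasicEq P) (hF : ForcesFacts S) (k : ℕ) (φ : Fml (k + 2))
    (v : Fin (k + 1) → Name P) (p : P) (hv : ∀ i, S.IsHS (v i)) :
    S.Forces (Fml.axRepl φ) v p := by
  classical
  have hv' : ∀ i : Fin k, S.IsHS (v i.succ) := fun i => hv i.succ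
  set w : Fin k → Name P := fun i => v i.succ with hw
  unfold Fml.axRepl
  rw [hF.imp]
  intro q _ hq
  -- the meaning of the hypothesis
  have e1 : ∀ x y : Name P, (Fin.cons y (Fin.cons x v : Fin (k + 2) → Name P) :
      Fin (k + 3) → Name P) ∘ (Fin.cons 1 (Fin.cons 0 fun i => i.succ.succ.succ :
        Fin (k + 1) → Fin (k + 3)) : Fin (k + 2) → Fin (k + 3)) =
      (Fin.cons x (Fin.cons y w : Fin (k + 1) → Name P) : Fin (k + 2) → Name P) := by
    intro x y
    funext i
    refine Fin.cases ?_ (fun i => ?_) i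
    · rfl
    · refine Fin.cases ?_ (fun i => ?_) i
      · rfl
      · rfl
  have e2 : ∀ x y y' : Name P, (Fin.cons y' (Fin.cons y (Fin.cons x v : Fin (k + 2) → Name P) :
      Fin (k + 3) → Name P) : Fin (k + 4) → Name P) ∘
      (Fin.cons 2 (Fin.cons 0 fun i => i.succ.succ.succ.succ :
        Fin (k + 1) → Fin (k + 4)) : Fin (k + 2) → Fin (k + 4)) =
      (Fin.cons x (Fin.cons y' w : Fin (k + 1) → Name P) : Fin (k + 2) → Name P) := by
    intro x y y'
    funext i
    refine Fin.cases ?_ (fun i => ?_) i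
    · rfl
    · refine Fin.cases ?_ (fun i => ?_) i
      · rfl
      · rfl
  have e3 : ∀ x y b : Name P, (Fin.cons x (Fin.cons y (Fin.cons b v : Fin (k + 2) → Name P) :
      Fin (k + 3) → Name P) : Fin (k + 4) → Name P) ∘
      (Fin.cons 0 (Fin.cons 1 fun i => i.succ.succ.succ.succ :
        Fin (k + 1) → Fin (k + 4)) : Fin (k + 2) → Fin (k + 4)) =
      (Fin.cons x (Fin.cons y w : Fin (k + 1) → Name P) : Fin (k + 2) → Name P) := by
    intro x y b
    funext i
    refine Fin.cases ?_ (fun i => ?_) i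
    · rfl
    · refine Fin.cases ?_ (fun i => ?_) i
      · rfl
      · rfl
  have e4 : ∀ x y : Name P, (Fin.cons x (Fin.cons y v : Fin (k + 2) → Name P) :
      Fin (k + 3) → Name P) ∘ (Fin.cons 0 (Fin.cons 1 fun i => i.succ.succ.succ :
        Fin (k + 1) → Fin (k + 3)) : Fin (k + 2) → Fin (k + 3)) =
      (Fin.cons x (Fin.cons y w : Fin (k + 1) → Name P) : Fin (k + 2) → Name P) := by
    intro x y
    funext i
    refine Fin.cases ?_ (fun i => ?_) i
    · rfl
    · refine Fin.cases ?_ (fun i => ?_) i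
      · rfl
      · rfl
  have hex : ∀ (x : Name P), S.IsHS x → ∀ r ≤ q, FMem x (v 0) r → ∃ r' ≤ r, ∃ y, S.IsHS y ∧
      ∀ y', S.IsHS y' → ∀ s ≤ r', S.Forces φ (Fin.cons x (Fin.cons y' w : Fin (k + 1) → Name P)) s →
        FEq y' y s := by
    intro x hx r hr hxr
    have h1 := hq x hx
    rw [hF.imp] at h1
    have h2 := h1 r hr hxr
    rw [hF.ex] at h2
    obtain ⟨r', hr', y, hy, -, h3⟩ := h2 r le_rfl
    refine ⟨r', hr', y, hy, fun y' hy' s hs h4 => ?_⟩
    have h5 := h3 y' hy'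
    rw [hF.imp] at h5
    refine h5 s hs ?_
    rw [forces_ren, e2]
    exact h4
  -- the collecting name
  let y₀ : Name P := Name.mk PEmpty (fun i => i.elim) (fun i => i.elim)
  have hy₀ : S.IsHS y₀ := isHS_empty hB hF
  obtain ⟨α, A, B, ha⟩ : ∃ (α : Type u) (A : α → Name P) (B : α → P), v 0 = Name.mk α A B := by
    cases v 0 with
    | mk α A B => exact ⟨α, A, B, rfl⟩
  have haA : ∀ i, S.IsHS (A i) := by
    have := hv 0
    rw [ha] at this
    exact this.1
  let Y : α → P → Name P := fun i r =>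
    if h : ∃ y, S.IsHS y ∧ S.Forces φ (Fin.cons (A i) (Fin.cons y w : Fin (k + 1) → Name P)) r then
      h.choose else y₀
  have hY1 : ∀ i r, S.IsHS (Y i r) := by
    intro i r
    by_cases h : ∃ y, S.IsHS y ∧
        S.Forces φ (Fin.cons (A i) (Fin.cons y w : Fin (k + 1) → Name P)) r
    · have h1 : Y i r = h.choose := dif_pos h
      rw [h1]
      exact h.choose_spec.1
    · have h1 : Y i r = y₀ := dif_neg h
      rw [h1]
      exact hy₀
  have hY2 : ∀ i r y, S.IsHS y →
      S.Forces φ (Fin.cons (A i) (Fin.cons y w : Fin (k + 1) → Name P)) r →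
      S.Forces φ (Fin.cons (A i) (Fin.cons (Y i r) w : Fin (k + 1) → Name P)) r := by
    intro i r y hy hyr
    have h : ∃ y, S.IsHS y ∧
        S.Forces φ (Fin.cons (A i) (Fin.cons y w : Fin (k + 1) → Name P)) r := ⟨y, hy, hyr⟩
    have h1 : Y i r = h.choose := dif_pos h
    rw [h1]
    exact h.choose_spec.2
  let b₀ : Name P := Name.mk (α × P × G) (fun t => act t.2.2 (Y t.1 t.2.1)) (fun _ => ⊤)
  have hb₀ : S.IsHS b₀ := by
    refine isHS_of hB hF (fun t => hF.hsAct _ _ (hY1 _ _)) S.top_mem fun g _ t => ?_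
    rw [act_mul]
    exact hB.elem (α × P × G) (fun t => act t.2.2 (Y t.1 t.2.1)) (fun _ => ⊤)
      (t.1, t.2.1, g * t.2.2) _ le_top
  let χ : Fml (k + 2) := Fml.ex (Fml.and (Fml.mem 0 2)
    (Fml.ren φ (Fin.cons 0 (Fin.cons 1 fun i => i.succ.succ.succ))))
  have hχ : ∀ (y : Name P) (r : P), S.Forces χ (Fin.cons y v) r ↔ ∀ r' ≤ r, ∃ s ≤ r', ∃ x,
      S.IsHS x ∧ FMem x (v 0) s ∧
        S.Forces φ (Fin.cons x (Fin.cons y w : Fin (k + 1) → Name P)) s := by
    intro y r
    rw [hF.ex]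
    refine forall_congr' fun r' => imp_congr_right fun _ => exists_congr fun s =>
      and_congr_right fun _ => exists_congr fun x => and_congr_right fun _ => ?_
    show (FMem x (v 0) s ∧ S.Forces (Fml.ren φ (Fin.cons 0 (Fin.cons 1 fun i => i.succ.succ.succ)))
      (Fin.cons x (Fin.cons y v : Fin (k + 2) → Name P)) s) ↔ _
    rw [forces_ren, e4]
  rw [hF.ex]
  intro q' hq'
  refine ⟨q', le_rfl, sepName S χ v b₀, isHS_sepName hB hF χ v hv b₀ hb₀, fun y hy => ?_⟩
  rw [hF.iff]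
  intro r hr
  have hmem := mem_sepName hB hF χ v b₀ y r
  have hfin : S.Forces (Fml.ex (Fml.and (Fml.mem 0 3)
      (Fml.ren φ (Fin.cons 0 (Fin.cons 1 fun i => i.succ.succ.succ.succ)))))
      (Fin.cons y (Fin.cons (sepName S χ v b₀) v : Fin (k + 2) → Name P)) r ↔
      ∀ r' ≤ r, ∃ s ≤ r', ∃ x, S.IsHS x ∧ FMem x (v 0) s ∧
        S.Forces φ (Fin.cons x (Fin.cons y w : Fin (k + 1) → Name P)) s := by
    rw [hF.ex]
    refine forall_congr' fun r' => imp_congr_right fun _ => exists_congr fun s =>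
      and_congr_right fun _ => exists_congr fun x => and_congr_right fun _ => ?_
    show (FMem x (v 0) s ∧ S.Forces
      (Fml.ren φ (Fin.cons 0 (Fin.cons 1 fun i => i.succ.succ.succ.succ)))
      (Fin.cons x (Fin.cons y (Fin.cons (sepName S χ v b₀) v : Fin (k + 2) → Name P) :
        Fin (k + 3) → Name P)) s) ↔ _
    rw [forces_ren, e3]
  refine hmem.trans (Iff.trans ?_ hfin.symm)
  rw [hχ]
  refine ⟨fun h => h.2, fun h => ⟨?_, h⟩⟩
  refine hB.memDense _ _ _ fun r' hr' => ?_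
  obtain ⟨s, hs, x, hx, hxa, hxy⟩ := h r' hr'
  have hxa' := hxa
  rw [ha] at hxa'
  obtain ⟨s₁, hs₁, i, hi, hxi⟩ := hxa' s le_rfl
  have hAi : FMem (A i) (v 0) s₁ := by
    rw [ha]
    exact hB.elem α A B i s₁ hi
  have hφ1 : S.Forces φ (Fin.cons (A i) (Fin.cons y w : Fin (k + 1) → Name P)) s₁ :=
    forces_cons_congr hB hF φ _ hxi (hF.mono _ _ _ _ hxy hs₁)
  have hφ2 := hY2 i s₁ y hy hφ1
  have hsq : s₁ ≤ q := ((hs₁.trans hs).trans (hr'.trans hr)).trans hq'
  obtain ⟨s₂, hs₂, z, hz, huni⟩ := hex (A i) (haA i) s₁ hsq hAi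
  have h1 := huni y hy s₂ le_rfl (hF.mono _ _ _ _ hφ1 hs₂)
  have h2 := huni (Y i s₁) (hY1 _ _) s₂ le_rfl (hF.mono _ _ _ _ hφ2 hs₂)
  refine ⟨s₂, (hs₂.trans hs₁).trans hs, ?_⟩
  refine hB.memCongr _ _ _ _ _ (hB.trans _ _ _ _ h2 (hB.symm _ _ _ h1)) (hB.refl _ _) ?_
  have h3 := hB.elem (α × P × G) (fun t => act t.2.2 (Y t.1 t.2.1)) (fun _ => (⊤ : P))
    (i, s₁, 1) s₂ le_top
  rwa [act_one] at h3

end facts

end Pool.Agent.Helper64.SP
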