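import Pool.Agent.Helper64.SP.B4

/-!
# Module D3: the reals of the symmetric model
-/

universe u

namespace Pool.Agent.Helper64.SP

open Pool.Agent.Helper46.SP Name

theorem act_num {P G : Type u} [Preorder P] [OrderTop P] [Group G] [MulAction G P]
    (S : SymSys P G) (g : G) (n : ℕ) : act g (Name.num n : Name P) = Name.num n := by
  induction n using Nat.strong_induction_on with
  | _ n ih =>
    rw [Name.num]
    show Name.mk _ (fun i : ULift.{u} (Fin n) => act g (Name.num i.down.1))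
      (fun _ => g • (⊤ : P)) = _
    congr 1
    · funext i
      exact ih _ i.down.2
    · funext i
      exact S.smul_top g

theorem isHS_num {P G : Type u} [Preorder P] [OrderTop P] [Group G] [MulAction G P]
    {S : SymSys P G} (hB : BasicEq P) (hF : ForcesFacts S) (n : ℕ) :
    S.IsHS (Name.num n : Name P) := by
  induction n using Nat.strong_induction_on with
  | _ n ih =>
    rw [Name.num]
    refine isHS_of hB hF (fun i => ih _ i.down.2) S.top_mem fun g _ i => ?_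
    rw [act_num S]
    exact hB.elem _ (fun i : ULift.{u} (Fin n) => Name.num i.down.1) (fun _ => (⊤ : P)) i _ le_top

section real

variable {P₀ C G : Type u} [Preorder P₀] [OrderTop P₀] [Preorder C] [OrderTop C] [Group G]
  [MulAction G P₀] [MulAction G C]

theorem smul_topC (S : SymSys (P₀ × C) G) (g : G) : g • (⊤ : C) = ⊤ :=
  congrArg Prod.snd (S.smul_top g)

theorem smul_topP (S : SymSys (P₀ × C) G) (g : G) : g • (⊤ : P₀) = ⊤ :=
  congrArg Prod.fst (S.smul_top g)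

/-- countable intersections of groups of the filter -/
theorem exists_fix {S : SymSys (P₀ × C) G} (hG : GoodProd P₀ C G S) (X : Set P₀)
    (hX : X.Countable) : ∃ H ∈ S.F, ∀ g ∈ H, ∀ a ∈ X, g • a = a := by
  rcases X.eq_empty_or_nonempty with rfl | hne
  · exact ⟨⊤, S.top_mem, fun g _ a ha => ha.elim⟩
  · obtain ⟨f, rfl⟩ := hX.exists_eq_range hne
    refine ⟨_, hG.countable (fun n => MulAction.stabilizer G (f n)) fun n => hG.stab _,
      fun g hg a ha => ?_⟩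
    obtain ⟨n, rfl⟩ := ha
    exact (Subgroup.mem_iInf.mp hg n : g ∈ MulAction.stabilizer G (f n))

theorem isHS_realName {S : SymSys (P₀ × C) G} (hB : BasicEq (P₀ × C)) (hF : ForcesFacts S)
    (hG : GoodProd P₀ C G S) (X : ℕ → Set P₀) (hX : ∀ n, (X n).Countable) :
    S.IsHS (Name.realName (fun q : P₀ => ((q, ⊤) : P₀ × C)) X) := by
  obtain ⟨H, hH, hfix⟩ := exists_fix hG (⋃ n, X n) (Set.countable_iUnion hX)
  refine isHS_of hB hF (fun t => isHS_num hB hF _) hH fun g hg t => ?_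
  rw [act_num S]
  have h1 : g • t.2.1 = t.2.1 := hfix g hg _ (Set.mem_iUnion.mpr ⟨t.1, t.2.2⟩)
  have h2 : g • ((t.2.1, ⊤) : P₀ × C) = (t.2.1, ⊤) := by
    show (g • t.2.1, g • (⊤ : C)) = _
    rw [h1, smul_topC S]
  rw [h2]
  exact hB.elem (Σ n : ℕ, {q : P₀ // q ∈ X n}) (fun t => Name.num t.1)
    (fun t => ((t.2.1, ⊤) : P₀ × C)) t _ le_rfl

/-- module `D3` -/
theorem st_reals (hccc : ST_ccc.{u}) (hB' : ST_basicEq.{u}) (hF' : ST_forcesFacts.{u}) :
    ST_reals.{u} := by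
  classical
  intro P₀ C G _ _ _ _ _ _ _ S hG y p c hy hsub
  have hB := hB' (P₀ × C)
  have hF := hF' (P₀ × C) G S
  let D : ℕ → Set (P₀ × C) := fun n => {x | FMem (Name.num n) y x ∨
    ∀ x' ≤ x, ¬ FMem (Name.num n) y x'}
  have hDo : ∀ n, ∀ x ∈ D n, ∀ x' ≤ x, x' ∈ D n := by
    rintro n x (h | h) x' hx'
    · exact Or.inl (hB.memMono _ _ _ _ h hx')
    · exact Or.inr fun x'' hx'' => h x'' (hx''.trans hx')
  have hDd : ∀ n x, ∃ x' ≤ x, x' ∈ D n := by
    intro n x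
    by_cases h : ∃ x' ≤ x, FMem (Name.num n) y x'
    · obtain ⟨x', h1, h2⟩ := h
      exact ⟨x', h1, Or.inl h2⟩
    · push Not at h
      exact ⟨x, le_rfl, Or.inr h⟩
  have step : ∀ (n : ℕ) (d : C), ∃ d' ≤ d, ∃ A : Set P₀, A.Countable ∧
      (∀ a ∈ A, (a, d') ∈ D n) ∧ ∀ q ≤ p, ∃ a ∈ A, ∃ r, r ≤ a ∧ r ≤ q := by
    intro n d
    obtain ⟨d', h1, A, h2, h3, -, h4⟩ := hccc P₀ C hG.ccc hG.closed p d (D n) (hDo n)
      fun x _ => hDd n x
    exact ⟨d', h1, A, h2, fun a ha => (h3 a ha).2, h4⟩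
  choose nx hnx A hA1 hA2 hA3 using step
  let dd : ℕ → C := fun n => Nat.rec c (fun n d => nx n d) n
  have hdd : ∀ n, dd (n + 1) = nx n (dd n) := fun n => rfl
  have hmono : ∀ n, dd (n + 1) ≤ dd n := fun n => by
    rw [hdd]
    exact hnx n _
  obtain ⟨d, hd⟩ := hG.closed dd hmono
  let X : ℕ → Set P₀ := fun n => {a | a ∈ A n (dd n) ∧ FMem (Name.num n) y (a, dd (n + 1))}
  have hX : ∀ n, (X n).Countable := fun n => (hA1 n (dd n)).mono fun a ha => ha.1
  refine ⟨d, hd 0, X, hX, ?_⟩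
  refine hF.ext _ _ _ hy (isHS_realName hB hF hG X hX) fun x hx q hq => ⟨fun h => ?_, fun h => ?_⟩
  · have hq' : q ≤ (p, c) := hq.trans ⟨le_rfl, hd 0⟩
    have h1 := hsub x hx q hq' h
    refine hB.memDense _ _ _ fun q₁ hq₁ => ?_
    obtain ⟨r, hr, n, -, hxn⟩ := h1 q₁ hq₁
    have h2 : FMem (Name.num n.down) y r := hB.memCongr _ _ _ _ _ hxn (hB.refl _ _)
      (hB.memMono _ _ _ _ h (hr.trans hq₁))
    have hrp : r.1 ≤ p := ((hr.trans hq₁).trans hq).1
    have hrd : r.2 ≤ d := ((hr.trans hq₁).trans hq).2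
    obtain ⟨a, ha, s, hsa, hsr⟩ := hA3 n.down (dd n.down) r.1 hrp
    have hle : ((s, r.2) : P₀ × C) ≤ r := ⟨hsr, le_rfl⟩
    have hle' : ((s, r.2) : P₀ × C) ≤ (a, dd (n.down + 1)) := ⟨hsa, hrd.trans (hd (n.down + 1))⟩
    refine ⟨(s, r.2), hle.trans hr, ?_⟩
    have h3 : FMem (Name.num n.down) y (s, r.2) := hB.memMono _ _ _ _ h2 hle
    have h4 : a ∈ X n.down := by
      refine ⟨ha, ?_⟩
      rcases hA2 n.down (dd n.down) a ha with h5 | h5
      · exact h5
      · exact absurd h3 (h5 _ hle')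
    refine hB.memCongr _ _ _ _ _ (hB.symm _ _ _ (hB.mono _ _ _ _ hxn hle)) (hB.refl _ _) ?_
    exact hB.elem (Σ n : ℕ, {q : P₀ // q ∈ X n}) (fun t => Name.num t.1)
      (fun t => ((t.2.1, ⊤) : P₀ × C)) ⟨n.down, a, h4⟩ _ ⟨hsa, le_top⟩
  · refine hB.memDense _ _ _ fun q₁ hq₁ => ?_
    obtain ⟨r, hr, t, ht, hxt⟩ := h q₁ hq₁
    refine ⟨r, hr, ?_⟩
    have hrd : r.2 ≤ d := ((hr.trans hq₁).trans hq).2
    have h1 : FMem (Name.num t.1) y r := hB.memMono _ _ _ _ t.2.2.2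
      (show r ≤ (t.2.1, dd (t.1 + 1)) from ⟨ht.1, hrd.trans (hd (t.1 + 1))⟩)
    exact hB.memCongr _ _ _ _ _ (hB.symm _ _ _ hxt) (hB.refl _ _) h1

end real

end Pool.Agent.Helper64.SP
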