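import Pool.Agent.Helper46.SP.CoreSpec
import Pool.Agent.Helper64.SP.D3

/-!
# Module E, part 1: the symmetric system of the model
-/

namespace Pool.Agent.Helper64.SP

open Cardinal Set Pool.Agent.Helper46.SP Name
open scoped Pointwise

/-! ### cardinals and levels -/

section card

variable {Q : Par}

theorem aleph0_le_kappa (ξ : Q.Lev) : ℵ₀ ≤ Q.κ ξ :=
  (cantor ℵ₀).le.trans (Q.cont_le ξ)

theorem aleph0_le_K : ℵ₀ ≤ Q.K := by
  obtain ⟨ν, -⟩ := Q.lev_bdd ∅ Set.countable_empty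
  exact (aleph0_le_kappa ν).trans (Q.κ_le_K ν)

theorem kappa_mono {ξ η : Q.Lev} (h : ξ ≤ η) : Q.κ ξ ≤ Q.κ η := by
  rcases h.eq_or_lt with rfl | h
  · exact le_rfl
  · exact ((cantor _).le.trans (cantor _).le).trans (Q.κ_beth ξ η h)

theorem mk_union_le_of {α : Type} {c : Cardinal.{0}} (hc : ℵ₀ ≤ c) {s t : Set α}
    (hs : #s ≤ c) (ht : #t ≤ c) : #(s ∪ t : Set α) ≤ c :=
  (mk_union_le s t).trans (add_le_of_le hc hs ht)

theorem mk_countable_le {α : Type} {c : Cardinal.{0}} (hc : ℵ₀ ≤ c) {s : Set α}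
    (hs : s.Countable) : #s ≤ c :=
  (Cardinal.mk_le_aleph0_iff.mpr hs.to_subtype).trans hc

theorem mk_smul_set (g : Grp Q) (z : Set (Idx Q)) : #(g • z : Set (Idx Q)) ≤ #z :=
  mk_image_le

theorem below_mono {ζ ζ' : Stg Q} (h : ζ ≤ ζ') : (below ζ : Set (Idx Q)) ⊆ below ζ' :=
  fun _ hi ξ hξ => (hi ξ hξ).trans_le h

theorem smul_below (g : Grp Q) (ζ : Stg Q) {i : Idx Q} (h : i ∈ (below ζ : Set (Idx Q))) :
    g • i ∈ (below ζ : Set (Idx Q)) := fun ξ hξ => h ξ hξ

theorem smul_below_set (g : Grp Q) (ζ : Stg Q) {z : Set (Idx Q)}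
    (h : z ⊆ (below ζ : Set (Idx Q))) : g • z ⊆ (below ζ : Set (Idx Q)) := by
  rintro _ ⟨i, hi, rfl⟩
  exact smul_below g ζ (h hi)

theorem below_top (i : Idx Q) : i ∈ (below (⊤ : Stg Q) : Set (Idx Q)) :=
  fun ξ _ => WithTop.coe_lt_top ξ

end card

/-! ### the poset of conditions of the top stage -/

variable {Q : Par} (S : CodeSys Q)

/-- the conditions of the top stage -/
def TC : Type := {c : RC S // c ∈ (CC (⊤ : Stg Q) : Set (RC S))}

instance : PartialOrder (TC S) where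
  le c d := d.1 ⊆ c.1
  le_refl c := Subset.rfl
  le_trans _ _ _ h h' := h'.trans h
  le_antisymm _ _ h h' := Subtype.ext (h'.antisymm h)

theorem empty_mem_CC (ζ : Stg Q) : (∅ : RC S) ∈ (CC ζ : Set (RC S)) := by
  rw [mem_CC]
  refine ⟨by simp, fun t ht => ht.elim, fun η _ => ⟨fun t ht => ht.elim, fun t ht => ht.elim,
    fun t ht => ht.elim⟩⟩

instance : OrderTop (TC S) where
  top := ⟨∅, empty_mem_CC S ⊤⟩
  le_top c := Set.empty_subset _

theorem top_val : (⊤ : TC S).1 = ∅ := rfl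

section act

variable [hG : Fact (GFacts S)]

instance : MulAction (Grp Q) (TC S) where
  smul g c := ⟨g • c.1, hG.out.cc ⊤ g c.1 c.2⟩
  one_smul c := Subtype.ext (one_smul _ c.1)
  mul_smul g h c := Subtype.ext (mul_smul g h c.1)

theorem smul_val (g : Grp Q) (c : TC S) : (g • c).1 = g • c.1 := rfl

theorem smul_eq_mk (g : Grp Q) (p : P0 Q) (c : TC S) : g • (p, c) = (g • p, g • c) := rfl

theorem smulTC_top (g : Grp Q) : g • (⊤ : TC S) = ⊤ :=
  Subtype.ext (Set.smul_set_empty)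

theorem smulTC_le (g : Grp Q) (c d : TC S) (h : c ≤ d) : g • c ≤ g • d :=
  Set.smul_set_mono h

theorem fixes_mul {g h : Grp Q} {z : Set (Idx Q)} (hg : Fixes g z) (hh : Fixes h z) :
    Fixes (g * h) z := fun i hi => by rw [mul_smul, hh i hi, hg i hi]

theorem fixes_inv {g : Grp Q} {z : Set (Idx Q)} (hg : Fixes g z) : Fixes g⁻¹ z :=
  fun i hi => by rw [inv_smul_eq_iff, hg i hi]

theorem fixes_one (z : Set (Idx Q)) : Fixes (1 : Grp Q) z := fun i _ => one_smul _ i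

/-- the permutations fixing `z` -/
def fixG (z : Set (Idx Q)) : Subgroup (Grp Q) where
  carrier := {g | Fixes g z}
  one_mem' := fixes_one z
  mul_mem' := fun ha hb => fixes_mul ha hb
  inv_mem' := fun ha => fixes_inv ha

theorem mem_fixG {z : Set (Idx Q)} {g : Grp Q} : g ∈ fixG z ↔ Fixes g z := Iff.rfl

/-- the symmetric system -/
def sys : SymSys (P0 Q × TC S) (Grp Q) where
  smul_le g _ _ h := ⟨P0.smul_le g _ _ h.1, smulTC_le S g _ _ h.2⟩
  smul_top g := Prod.ext (P0.smul_top g) (smulTC_top S g)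
  F := {H | ∃ (ν : Q.Lev) (z : Set (Idx Q)), z ⊆ below (ν : Stg Q) ∧ #z ≤ Q.κ ν ∧ fixG z ≤ H}
  top_mem := by
    obtain ⟨ν, -⟩ := Q.lev_bdd ∅ Set.countable_empty
    exact ⟨ν, ∅, Set.empty_subset _, by simp, le_top⟩
  inf_mem := by
    rintro H ⟨ν, z, h1, h2, h3⟩ K ⟨ν', z', h1', h2', h3'⟩
    refine ⟨max ν ν', z ∪ z', Set.union_subset ?_ ?_, ?_, fun g hg => ⟨h3 ?_, h3' ?_⟩⟩
    · exact h1.trans (below_mono (WithTop.coe_le_coe.mpr (le_max_left ν ν')))
    · exact h1'.trans (below_mono (WithTop.coe_le_coe.mpr (le_max_right ν ν')))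
    · exact mk_union_le_of (aleph0_le_kappa _) (h2.trans (kappa_mono (le_max_left _ _)))
        (h2'.trans (kappa_mono (le_max_right _ _)))
    · exact fun i hi => hg i (Or.inl hi)
    · exact fun i hi => hg i (Or.inr hi)
  mono := by
    rintro H ⟨ν, z, h1, h2, h3⟩ K hK
    exact ⟨ν, z, h1, h2, h3.trans hK⟩
  conj_mem := by
    rintro H ⟨ν, z, h1, h2, h3⟩ g
    refine ⟨fixG (g • z), ⟨ν, g • z, smul_below_set g _ h1, (mk_smul_set g z).trans h2, le_rfl⟩,
      fun k hk => h3 fun i hi => ?_⟩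
    rw [mul_smul, mul_smul, hk (g • i) (Set.smul_mem_smul_set hi), inv_smul_smul]

theorem mem_sys_F {H : Subgroup (Grp Q)} : H ∈ (sys S).F ↔
    ∃ (ν : Q.Lev) (z : Set (Idx Q)), z ⊆ below (ν : Stg Q) ∧ #z ≤ Q.κ ν ∧ fixG z ≤ H := Iff.rfl

/-- the conditions of the general modules on products -/
theorem goodProd (hccc : CCC (P0 Q)) (hC : CFacts S) (hP : P0Facts Q) :
    GoodProd (P0 Q) (TC S) (Grp Q) (sys S) where
  ccc := hccc
  closed := by
    intro f hf
    have hmono : ∀ m n, m ≤ n → (f m).1 ⊆ (f n).1 := by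
      intro m n h
      induction n, h using Nat.le_induction with
      | base => exact Subset.rfl
      | succ n _ ih => exact ih.trans (hf n)
    have hdir : ⋃₀ (Set.range fun n => (f n).1) ∈ (CC (⊤ : Stg Q) : Set (RC S)) := by
      refine hC.directed ⊤ _ ?_ ?_ ?_
      · rintro _ ⟨n, rfl⟩
        exact (f n).2
      · rintro _ ⟨m, rfl⟩ _ ⟨n, rfl⟩
        exact ⟨(f (max m n)).1, ⟨_, rfl⟩, hmono _ _ (le_max_left _ _), hmono _ _ (le_max_right _ _)⟩
      · rw [Set.sUnion_range]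
        refine (mk_iUnion_le _).trans ?_
        refine (mul_le_mul' (le_of_eq (mk_nat)) (ciSup_le' fun n => ?_)).trans
          (mul_le_of_le (aleph0_le_K (Q := Q)) (aleph0_le_K (Q := Q)) le_rfl)
        exact (mem_CC.mp (f n).2).1
    exact ⟨⟨_, hdir⟩, fun n => Set.subset_sUnion_of_mem ⟨n, rfl⟩⟩
  countable := by
    intro H hH
    choose ν z h1 h2 h3 using hH
    obtain ⟨μ, hμ⟩ := Q.lev_bdd (Set.range ν) (Set.countable_range ν)
    have hle : ∀ n, ν n ≤ μ := fun n => (hμ _ ⟨n, rfl⟩).le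
    refine ⟨μ, ⋃ n, z n, Set.iUnion_subset fun n => (h1 n).trans
      (below_mono (WithTop.coe_le_coe.mpr (hle n))), ?_, ?_⟩
    · refine (mk_iUnion_le _).trans ?_
      refine (mul_le_mul' (le_of_eq (mk_nat)) (ciSup_le' fun n => ?_)).trans
        (mul_le_of_le (aleph0_le_kappa μ) (aleph0_le_kappa μ) le_rfl)
      exact (h2 n).trans (kappa_mono (hle n))
    · refine le_iInf fun n => le_trans (fun g hg => ?_) (h3 n)
      exact fun i hi => hg i (Set.mem_iUnion.mpr ⟨n, hi⟩)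
  stab := by
    intro p
    obtain ⟨ν, -⟩ := Q.lev_bdd ∅ Set.countable_empty
    obtain ⟨z, h1, h2, h3⟩ := hP.fin_supp p
    refine ⟨ν, z, h2 _, mk_countable_le (aleph0_le_kappa ν) h1.countable, fun g hg => ?_⟩
    have h4 := hP.smul_congr g 1 p z h3 fun i hi => by rw [hg i hi, one_smul]
    rw [one_smul] at h4
    exact h4

end act

end Pool.Agent.Helper64.SP
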