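import Pool.Agent.Helper64.SP.E1

/-!
# Module E, part 2: names of reals in the model
-/

namespace Pool.Agent.Helper64.SP

open Cardinal Set Pool.Agent.Helper46.SP Name
open scoped Pointwise

variable {Q : Par} (S : CodeSys Q)

/-- the name of the real `x` -/
def xh (x : RN Q) : Name (P0 Q × TC S) :=
  Name.realName (fun q : P0 Q => ((q, ⊤) : P0 Q × TC S)) x.val

variable {S}

theorem rn_down (x : RN Q) {n : ℕ} {p q : P0 Q} (h : p ∈ x.val n) (hq : q ≤ p) : q ∈ x.val n := by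
  rw [x.reg]
  intro q' hq'
  rw [x.reg] at h
  exact h q' (hq'.trans hq)

theorem fmem_xh_of (hB : BasicEq (P0 Q × TC S)) (x : RN Q) {n : ℕ} {s : P0 Q × TC S}
    (h : s.1 ∈ x.val n) : FMem (Name.num n) (xh S x) s :=
  hB.elem (Σ n : ℕ, {q : P0 Q // q ∈ x.val n}) (fun t => Name.num t.1)
    (fun t => ((t.2.1, ⊤) : P0 Q × TC S)) ⟨n, s.1, h⟩ s ⟨le_rfl, le_top⟩

theorem fmem_xh_elim (hB : BasicEq (P0 Q × TC S)) (x : RN Q) {z : Name (P0 Q × TC S)}
    {s : P0 Q × TC S} (h : FMem z (xh S x) s) (s' : P0 Q × TC S) (hs' : s' ≤ s) :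
    ∃ r ≤ s', ∃ n, r.1 ∈ x.val n ∧ FEq z (Name.num n) r := by
  obtain ⟨r, hr, j, hj, hz⟩ := h s' hs'
  exact ⟨r, hr, j.1, rn_down x j.2.2 hj.1, hz⟩

section fact

variable [hG : Fact (GFacts S)]

theorem fmem_xh (hB : BasicEq (P0 Q × TC S)) (hS : SetFacts (sys S)) (x : RN Q) {n : ℕ}
    {s : P0 Q × TC S} : FMem (Name.num n) (xh S x) s ↔ s.1 ∈ x.val n := by
  refine ⟨fun h => ?_, fun h => fmem_xh_of hB x h⟩
  rw [x.reg]
  intro p hp
  obtain ⟨r, hr, m, hm, he⟩ := fmem_xh_elim hB x h (p, s.2) ⟨hp, le_rfl⟩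
  have := hS.numInj n m r he
  subst this
  exact ⟨r.1, hr.1, hm⟩

/-- real names are equal iff they are -/
theorem feq_xh (hB : BasicEq (P0 Q × TC S)) (hS : SetFacts (sys S)) (x y : RN Q)
    {s : P0 Q × TC S} : FEq (xh S x) (xh S y) s ↔ x.Feq y s.1 := by
  constructor
  · intro h q hq n
    have h1 : FEq (xh S x) (xh S y) (q, s.2) := hB.mono _ _ _ _ h ⟨hq, le_rfl⟩
    have h2 := fmem_xh hB hS x (n := n) (s := (q, s.2))
    have h3 := fmem_xh hB hS y (n := n) (s := (q, s.2))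
    refine h2.symm.trans (Iff.trans ⟨fun h4 => ?_, fun h4 => ?_⟩ h3)
    · exact hB.memCongr _ _ _ _ _ (hB.refl _ _) h1 h4
    · exact hB.memCongr _ _ _ _ _ (hB.refl _ _) (hB.symm _ _ _ h1) h4
  · intro h
    refine hB.ext _ _ _ fun z q hq => ⟨fun h1 => ?_, fun h1 => ?_⟩
    · refine hB.memDense _ _ _ fun q' hq' => ?_
      obtain ⟨r, hr, n, hn, hz⟩ := fmem_xh_elim hB x h1 q' hq'
      refine ⟨r, hr, hB.memCongr _ _ _ _ _ (hB.symm _ _ _ hz) (hB.refl _ _) (fmem_xh_of hB y ?_)⟩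
      exact (h r.1 ((hr.trans hq').trans hq).1 n).mp hn
    · refine hB.memDense _ _ _ fun q' hq' => ?_
      obtain ⟨r, hr, n, hn, hz⟩ := fmem_xh_elim hB y h1 q' hq'
      refine ⟨r, hr, hB.memCongr _ _ _ _ _ (hB.symm _ _ _ hz) (hB.refl _ _) (fmem_xh_of hB x ?_)⟩
      exact (h r.1 ((hr.trans hq').trans hq).1 n).mpr hn

/-- real names are names of sets of natural numbers -/
theorem xh_sub_omega (hB : BasicEq (P0 Q × TC S)) (x : RN Q) (z : Name (P0 Q × TC S))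
    {s : P0 Q × TC S} (h : FMem z (xh S x) s) : FMem z Name.omega s := by
  refine hB.memDense _ _ _ fun q' hq' => ?_
  obtain ⟨r, hr, n, hn, hz⟩ := fmem_xh_elim hB x h q' hq'
  refine ⟨r, hr, hB.memCongr _ _ _ _ _ (hB.symm _ _ _ hz) (hB.refl _ _) ?_⟩
  exact hB.elem (ULift.{0} ℕ) (fun n => Name.num n.down) (fun _ => (⊤ : P0 Q × TC S)) ⟨n⟩ r le_top

theorem mem_smul_val (g : Grp Q) (x : RN Q) (n : ℕ) (p : P0 Q) :
    g • p ∈ (g • x).val n ↔ p ∈ x.val n := by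
  rw [RN.smul_val]
  exact Set.smul_mem_smul_set_iff

/-- the action on names of reals -/
theorem act_xh (hB : BasicEq (P0 Q × TC S)) (hF : ForcesFacts (sys S)) (g : Grp Q) (x : RN Q)
    (s : P0 Q × TC S) : FEq (act g (xh S x)) (xh S (g • x)) s := by
  refine hB.ext _ _ _ fun z q hq => ⟨fun h1 => ?_, fun h1 => ?_⟩
  · refine hB.memDense _ _ _ fun q' hq' => ?_
    obtain ⟨r, hr, j, hj, hz⟩ := h1 q' hq'
    replace hz : FEq z (act g (Name.num j.1)) r := hz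
    rw [act_num (sys S)] at hz
    refine ⟨r, hr, hB.memCongr _ _ _ _ _ (hB.symm _ _ _ hz) (hB.refl _ _) (fmem_xh_of hB _ ?_)⟩
    have h2 : g • j.2.1 ∈ (g • x).val j.1 := (mem_smul_val g x j.1 j.2.1).mpr j.2.2
    exact rn_down _ h2 hj.1
  · refine hB.memDense _ _ _ fun q' hq' => ?_
    obtain ⟨r, hr, n, hn, hz⟩ := fmem_xh_elim hB _ h1 q' hq'
    refine ⟨r, hr, hB.memCongr _ _ _ _ _ (hB.symm _ _ _ hz) (hB.refl _ _) ?_⟩
    have h2 : (g⁻¹ • r).1 ∈ x.val n := by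
      have h3 := mem_smul_val g x n (g⁻¹ • r.1)
      rw [smul_inv_smul] at h3
      exact h3.mp hn
    have h3 := mem_act hF g (fmem_xh_of hB x h2)
    rwa [act_num (sys S), smul_inv_smul] at h3

theorem exists_supp (hR : RNFacts Q) (x : RN Q) (ν : Q.Lev) : ∃ z : Set (Idx Q),
    z ⊆ below (ν : Stg Q) ∧ #z ≤ Q.κ ν ∧ x.Over z := by
  obtain ⟨z, h1, h2, h3⟩ := hR.over_univ x
  exact ⟨z, h2 _, mk_countable_le (aleph0_le_kappa ν) h1, h3⟩

theorem smul_eq_of_fixes (hR : RNFacts Q) {x : RN Q} {z : Set (Idx Q)} (h : x.Over z)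
    {g : Grp Q} (hg : Fixes g z) : g • x = x := by
  have h4 := hR.smul_congr g 1 x z h fun i hi => by rw [hg i hi, one_smul]
  rwa [one_smul] at h4

/-- real names are hereditarily symmetric -/
theorem isHS_xh (hB : BasicEq (P0 Q × TC S)) (hF : ForcesFacts (sys S)) (hR : RNFacts Q)
    (x : RN Q) : (sys S).IsHS (xh S x) := by
  obtain ⟨ν, -⟩ := Q.lev_bdd ∅ Set.countable_empty
  obtain ⟨z, h1, h2, h3⟩ := exists_supp hR x ν
  have hH : fixG z ∈ (sys S).F := ⟨ν, z, h1, h2, le_rfl⟩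
  refine isHS_of hB hF (fun t => isHS_num hB hF _) hH fun g hg t => ?_
  rw [act_num (sys S)]
  refine fmem_xh_of hB x ?_
  have h4 : g • x = x := smul_eq_of_fixes hR h3 hg
  have h5 := (mem_smul_val g x t.1 t.2.1).mpr t.2.2
  rw [h4] at h5
  exact h5

/-- every real of the model has a real name -/
theorem exists_xh (hB : BasicEq (P0 Q × TC S)) (hF : ForcesFacts (sys S)) (hR : RNFacts Q)
    (hGP : GoodProd (P0 Q) (TC S) (Grp Q) (sys S)) (hreals : ST_reals.{0})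
    (y : Name (P0 Q × TC S)) (hy : (sys S).IsHS y) (s : P0 Q × TC S)
    (h : ∀ z : Name (P0 Q × TC S), (sys S).IsHS z → ∀ q ≤ s, FMem z y q → FMem z Name.omega q) :
    ∃ d ≤ s.2, ∃ x : RN Q, FEq y (xh S x) (s.1, d) := by
  obtain ⟨d, hd, X, hX, he⟩ := hreals (P0 Q) (TC S) (Grp Q) (sys S) hGP y s.1 s.2 hy h
  obtain ⟨x, hx⟩ := hR.hull X hX
  refine ⟨d, hd, x, hB.trans _ _ _ _ he ?_⟩
  refine hB.ext _ _ _ fun z q hq => ⟨fun h1 => ?_, fun h1 => ?_⟩
  · refine hB.memDense _ _ _ fun q' hq' => ?_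
    obtain ⟨r, hr, j, hj, hz⟩ := h1 q' hq'
    refine ⟨r, hr, hB.memCongr _ _ _ _ _ (hB.symm _ _ _ hz) (hB.refl _ _) (fmem_xh_of hB _ ?_)⟩
    refine (hx _ _).mpr fun q₁ hq₁ => ⟨q₁, le_rfl, j.2.1, j.2.2, hq₁.trans hj.1⟩
  · refine hB.memDense _ _ _ fun q' hq' => ?_
    obtain ⟨r, hr, n, hn, hz⟩ := fmem_xh_elim hB _ h1 q' hq'
    obtain ⟨r', hr', a, ha, hra⟩ := (hx _ _).mp hn r.1 le_rfl
    refine ⟨(r', r.2), le_trans (show ((r', r.2) : P0 Q × TC S) ≤ r from ⟨hr', le_rfl⟩) hr, ?_⟩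
    refine hB.memCongr _ _ _ _ _ (hB.symm _ _ _ (hB.mono _ _ _ _ hz ⟨hr', le_rfl⟩))
      (hB.refl _ _) ?_
    exact hB.elem (Σ n : ℕ, {q : P0 Q // q ∈ X n}) (fun t => Name.num t.1)
      (fun t => ((t.2.1, ⊤) : P0 Q × TC S)) ⟨n, a, ha⟩ _ ⟨hra, le_top⟩

/-! ### pairs -/

theorem act_pair (g : Grp Q) (a b : Name (P0 Q × TC S)) (s : P0 Q × TC S)
    (hB : BasicEq (P0 Q × TC S)) :
    FEq (act g (Name.pair a b)) (Name.pair (act g a) (act g b)) s := by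
  have : act g (Name.pair a b) = Name.pair (act g a) (act g b) := by
    show Name.mk _ (fun t : ULift.{0} Bool => act g (if t.down then a else b))
      (fun _ => g • (⊤ : P0 Q × TC S)) = _
    unfold Name.pair
    congr 1
    · funext t
      rcases t with ⟨⟨⟩ | ⟨⟩⟩
      · rfl
      · rfl
    · funext t
      exact (sys S).smul_top g
  rw [this]
  exact hB.refl _ _

theorem fmem_pair (hB : BasicEq (P0 Q × TC S)) (a b z : Name (P0 Q × TC S)) (s : P0 Q × TC S) :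
    FMem z (Name.pair a b) s ↔ ∀ q ≤ s, ∃ r ≤ q, FEq z a r ∨ FEq z b r := by
  constructor
  · intro h q hq
    obtain ⟨r, hr, ⟨t⟩, -, ht⟩ := h q hq
    refine ⟨r, hr, ?_⟩
    cases t with
    | false => exact Or.inr ht
    | true => exact Or.inl ht
  · intro h q hq
    obtain ⟨r, hr, h1⟩ := h q hq
    rcases h1 with h1 | h1
    · exact ⟨r, hr, ⟨true⟩, le_top, h1⟩
    · exact ⟨r, hr, ⟨false⟩, le_top, h1⟩

theorem pair_congr (hB : BasicEq (P0 Q × TC S)) {a a' b b' : Name (P0 Q × TC S)}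
    {s : P0 Q × TC S} (h : FEq a a' s) (h' : FEq b b' s) :
    FEq (Name.pair a b) (Name.pair a' b') s := by
  refine hB.ext _ _ _ fun z q hq => ?_
  rw [fmem_pair hB, fmem_pair hB]
  constructor
  · intro h1 q₁ hq₁
    obtain ⟨r, hr, h2⟩ := h1 q₁ hq₁
    refine ⟨r, hr, h2.imp (fun h3 => ?_) fun h3 => ?_⟩
    · exact hB.trans _ _ _ _ h3 (hB.mono _ _ _ _ h ((hr.trans hq₁).trans hq))
    · exact hB.trans _ _ _ _ h3 (hB.mono _ _ _ _ h' ((hr.trans hq₁).trans hq))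
  · intro h1 q₁ hq₁
    obtain ⟨r, hr, h2⟩ := h1 q₁ hq₁
    refine ⟨r, hr, h2.imp (fun h3 => ?_) fun h3 => ?_⟩
    · exact hB.trans _ _ _ _ h3 (hB.symm _ _ _ (hB.mono _ _ _ _ h ((hr.trans hq₁).trans hq)))
    · exact hB.trans _ _ _ _ h3 (hB.symm _ _ _ (hB.mono _ _ _ _ h' ((hr.trans hq₁).trans hq)))

theorem opair_congr (hB : BasicEq (P0 Q × TC S)) {a a' b b' : Name (P0 Q × TC S)}
    {s : P0 Q × TC S} (h : FEq a a' s) (h' : FEq b b' s) :
    FEq (Name.opair a b) (Name.opair a' b') s :=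
  pair_congr hB (pair_congr hB h h) (pair_congr hB h h')

theorem act_opair (g : Grp Q) (a b : Name (P0 Q × TC S)) (s : P0 Q × TC S)
    (hB : BasicEq (P0 Q × TC S)) :
    FEq (act g (Name.opair a b)) (Name.opair (act g a) (act g b)) s :=
  hB.trans _ _ _ _ (act_pair g _ _ s hB)
    (pair_congr hB (act_pair g a a s hB) (act_pair g a b s hB))

/-! ### the relations on the reals given by names -/

variable (S) in
/-- `s ⊩ (x, y) ∈ e` for real names `x`, `y` -/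
def Rel (e : Name (P0 Q × TC S)) (x y : RN Q) (s : P0 Q × TC S) : Prop :=
  FMem (Name.opair (xh S x) (xh S y)) e s

theorem rel_mono (hB : BasicEq (P0 Q × TC S)) {e : Name (P0 Q × TC S)} {x y : RN Q}
    {s s' : P0 Q × TC S} (h : Rel S e x y s) (hs : s' ≤ s) : Rel S e x y s' :=
  hB.memMono _ _ _ _ h hs

theorem rel_dense (hB : BasicEq (P0 Q × TC S)) {e : Name (P0 Q × TC S)} {x y : RN Q}
    {s : P0 Q × TC S} (h : ∀ q ≤ s, ∃ r ≤ q, Rel S e x y r) : Rel S e x y s :=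
  hB.memDense _ _ _ h

theorem rel_congr (hB : BasicEq (P0 Q × TC S)) (hS : SetFacts (sys S)) {e : Name (P0 Q × TC S)}
    {x x' y y' : RN Q} {s : P0 Q × TC S} (h : Rel S e x y s) (hx : x.Feq x' s.1)
    (hy : y.Feq y' s.1) : Rel S e x' y' s :=
  hB.memCongr _ _ _ _ _ (opair_congr hB ((feq_xh hB hS x x').mpr hx)
    ((feq_xh hB hS y y').mpr hy)) (hB.refl _ _) h

theorem rel_act (hB : BasicEq (P0 Q × TC S)) (hF : ForcesFacts (sys S)) {e : Name (P0 Q × TC S)}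
    {g : Grp Q} (hg : FEq (act g e) e ⊤) {x y : RN Q} {s : P0 Q × TC S} (h : Rel S e x y s) :
    Rel S e (g • x) (g • y) (g • s) := by
  have h1 := mem_act hF g h
  refine hB.memCongr _ _ _ _ _ ?_ (hB.mono _ _ _ _ hg le_top) h1
  exact hB.trans _ _ _ _ (act_opair g _ _ _ hB)
    (opair_congr hB (act_xh hB hF g x _) (act_xh hB hF g y _))

end fact

end Pool.Agent.Helper64.SP
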