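import Pool.Agent.Helper64.SP.E2

/-!
# Module E, part 3: the splitting property is forced
-/

namespace Pool.Agent.Helper64.SP

open Cardinal Set Pool.Agent.Helper46.SP Name
open scoped Pointwise

variable {Q : Par}

/-- all the facts which are used -/
structure Env (S : CodeSys Q) [Fact (GFacts S)] : Prop where
  B : BasicEq (P0 Q × TC S)
  F : ForcesFacts (sys S)
  T : SetFacts (sys S)
  C : CFacts S
  O : OFacts S
  P : P0Facts Q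
  R : RNFacts Q
  perm : PermFacts Q
  GP : GoodProd (P0 Q) (TC S) (Grp Q) (sys S)
  reals : ST_reals.{0}
  tail : ∀ (ζ ν : Stg Q) (b : Set (P0 Q × RC S)),
    RegB ζ b → InvB (below ν) b → ∀ (p : P0 Q) (c : RC S), (p, c) ∈ b → (p, cut c ν) ∈ b
  tot : ∀ (ζ : Stg Q) (c : RC S), c ∈ CC ζ →
    ∀ (B : S.U) (l : Lab Q), (l.1 : Stg Q) < ζ → SN l.1 B →
    ∃ c' ∈ CC ζ, c ⊆ c' ∧ ∃ v, (B, l, v) ∈ c'
  dense : ∀ (ζ : Stg Q) (c : RC S) (Y₀ : Set (Idx Q)),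
    c ∈ CC ζ → Y₀ ⊆ below ζ → #Y₀ ≤ Q.K →
    ∃ (d : RC S) (Y : Set (Idx Q)), Closed d Y ∧ c ⊆ d ∧ d ∈ CC ζ ∧ Y₀ ⊆ Y ∧ Y ⊆ below ζ
  hull : ∀ (ζ : Q.Lev) (d : RC S) (Y z : Set (Idx Q)),
    Closed d Y → Y ⊆ below (ζ : Stg Q) → z ⊆ Y → #z ≤ Q.κ ζ →
    ∃ Z, z ⊆ Z ∧ Z ⊆ Y ∧ #Z ≤ Q.κ ζ ∧ DClosed d Z
  ma : MA S ⊤
  res : ∀ ζ : Stg Q, Res S ζ
  gen : ∀ ζ : Q.Lev, Gen S ζ

variable {S : CodeSys Q} [hG : Fact (GFacts S)]

/-! ### formulas -/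

theorem hs_elim0 : ∀ i : Fin 0, (sys S).IsHS (Fin.elim0 i : Name (P0 Q × TC S)) :=
  fun i => i.elim0

theorem hs_cons {k : ℕ} {x : Name (P0 Q × TC S)} {v : Fin k → Name (P0 Q × TC S)}
    (hx : (sys S).IsHS x) (hv : ∀ i, (sys S).IsHS (v i)) :
    ∀ i, (sys S).IsHS ((Fin.cons x v : Fin (k + 1) → Name (P0 Q × TC S)) i) := by
  intro i
  refine Fin.cases ?_ (fun i => ?_) i
  · exact hx
  · exact hv i

theorem isReals_ext {k : ℕ} (v : Fin k → Name (P0 Q × TC S)) (i : Fin k) (s : P0 Q × TC S)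
    (h : (sys S).Forces (Fml.isReals (0 : Fin 1)) (Fin.cons (v i) Fin.elim0) s) :
    (sys S).Forces (Fml.isReals i) v s := by
  have h1 := (forces_ren (sys S) (Fml.isReals (0 : Fin 1)) (fun _ => i) v s).mpr
  have h2 : v ∘ (fun _ : Fin 1 => i) = (Fin.cons (v i) Fin.elim0 : Fin 1 → Name (P0 Q × TC S)) := by
    funext j
    refine Fin.cases ?_ (fun j => ?_) j
    · rfl
    · exact j.elim0
  rw [h2] at h1
  exact h1 h

/-- `s ⊩ r = P(ω)` -/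
def IsR (r : Name (P0 Q × TC S)) (s : P0 Q × TC S) : Prop :=
  (sys S).Forces (Fml.isReals (0 : Fin 1)) (Fin.cons r Fin.elim0) s

theorem IsR.mem_iff (E : Env S) {r : Name (P0 Q × TC S)} {s : P0 Q × TC S} (h : IsR r s)
    (hr : (sys S).IsHS r) (y : Name (P0 Q × TC S)) (hy : (sys S).IsHS y) (q : P0 Q × TC S)
    (hq : q ≤ s) : FMem y r q ↔ ∀ z : Name (P0 Q × TC S), (sys S).IsHS z → ∀ q' ≤ q,
      FMem z y q' → FMem z Name.omega q' := by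
  have h1 := isReals_ext (Fin.cons r (Fin.cons y Fin.elim0) : Fin 2 → Name (P0 Q × TC S)) 0 q
    (E.F.mono _ _ _ _ h hq)
  exact E.T.memReals (Fin.cons r (Fin.cons y Fin.elim0) : Fin 2 → Name (P0 Q × TC S))
    (hs_cons hr (hs_cons hy hs_elim0)) 0 1 q h1

theorem IsR.mem_xh (E : Env S) {r : Name (P0 Q × TC S)} {s : P0 Q × TC S} (h : IsR r s)
    (hr : (sys S).IsHS r) (x : RN Q) (q : P0 Q × TC S) (hq : q ≤ s) : FMem (xh S x) r q :=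
  (h.mem_iff E hr _ (isHS_xh E.B E.F E.R x) q hq).mpr fun z _ _ _ hz => xh_sub_omega E.B x z hz

theorem IsR.exists_xh (E : Env S) {r : Name (P0 Q × TC S)} {s : P0 Q × TC S} (h : IsR r s)
    (hr : (sys S).IsHS r) (y : Name (P0 Q × TC S)) (hy : (sys S).IsHS y) (q : P0 Q × TC S)
    (hq : q ≤ s) (hm : FMem y r q) : ∃ q' ≤ q, ∃ x : RN Q, FEq y (xh S x) q' := by
  obtain ⟨d, hd, x, hx⟩ := Pool.Agent.Helper64.SP.exists_xh E.B E.F E.R E.GP E.reals y hy q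
    ((h.mem_iff E hr y hy q hq).mp hm)
  exact ⟨(q.1, d), ⟨le_rfl, hd⟩, x, hx⟩

/-- `s ⊩ e` is an equivalence relation on the reals -/
structure IsE (e : Name (P0 Q × TC S)) (s : P0 Q × TC S) : Prop where
  refl : ∀ (x : RN Q) (q : P0 Q × TC S), q ≤ s → Rel S e x x q
  symm : ∀ (x y : RN Q) (q : P0 Q × TC S), q ≤ s → Rel S e x y q → Rel S e y x q
  trans : ∀ (x y z : RN Q) (q : P0 Q × TC S), q ≤ s → Rel S e x y q → Rel S e y z q → Rel S e x z q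

theorem isE_of (E : Env S) {r e : Name (P0 Q × TC S)} {s : P0 Q × TC S} (h : IsR r s)
    (hr : (sys S).IsHS r) (he : (sys S).IsHS e)
    (h' : (sys S).Forces (Fml.isEquivOn (1 : Fin 2) 0) (Fin.cons e (Fin.cons r Fin.elim0)) s) :
    IsE e s := by
  obtain ⟨h1, h2, h3⟩ := h'
  have hs : ∀ x : RN Q, (sys S).IsHS (xh S x) := isHS_xh E.B E.F E.R
  refine ⟨fun x q hq => ?_, fun x y q hq hxy => ?_, fun x y z q hq hxy hyz => ?_⟩
  · have h4 := (E.F.imp _ _ _ _).mp (h1 (xh S x) (hs x)) q hq (h.mem_xh E hr x q hq)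
    exact (E.T.relMem _ (hs_cons (hs x) (hs_cons he (hs_cons hr hs_elim0))) _ _ _ _).mp h4
  · have h4 := (E.F.imp _ _ _ _).mp (h2 (xh S x) (hs x) (xh S y) (hs y)) q hq
      (h.mem_xh E hr x q hq)
    have h5 := (E.F.imp _ _ _ _).mp h4 q le_rfl (h.mem_xh E hr y q hq)
    have hv := hs_cons (hs y) (hs_cons (hs x) (hs_cons he (hs_cons hr (hs_elim0 (S := S)))))
    have h6 := (E.F.imp _ _ _ _).mp h5 q le_rfl ((E.T.relMem _ hv _ _ _ _).mpr hxy)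
    exact (E.T.relMem _ hv _ _ _ _).mp h6
  · have h4 := (E.F.imp _ _ _ _).mp (h3 (xh S x) (hs x) (xh S y) (hs y) (xh S z) (hs z)) q hq
      (h.mem_xh E hr x q hq)
    have h5 := (E.F.imp _ _ _ _).mp h4 q le_rfl (h.mem_xh E hr y q hq)
    have h6 := (E.F.imp _ _ _ _).mp h5 q le_rfl (h.mem_xh E hr z q hq)
    have hv := hs_cons (hs z)
      (hs_cons (hs y) (hs_cons (hs x) (hs_cons he (hs_cons hr (hs_elim0 (S := S))))))
    have h7 := (E.F.imp _ _ _ _).mp h6 q le_rfl ((E.T.relMem _ hv _ _ _ _).mpr hxy)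
    have h8 := (E.F.imp _ _ _ _).mp h7 q le_rfl ((E.T.relMem _ hv _ _ _ _).mpr hyz)
    exact (E.T.relMem _ hv _ _ _ _).mp h8

theorem isTransversal_of (E : Env S) {r e t : Name (P0 Q × TC S)} {s : P0 Q × TC S}
    (hr : (sys S).IsHS r) (he : (sys S).IsHS e) (ht : (sys S).IsHS t)
    (h1 : ∀ x, (sys S).IsHS x → ∀ q ≤ s, FMem x t q → FMem x r q)
    (h2 : ∀ x, (sys S).IsHS x → ∀ q ≤ s, FMem x r q → ∃ q' ≤ q, ∃ y, (sys S).IsHS y ∧
      (FMem y t q' ∧ FMem (Name.opair x y) e q') ∧ ∀ w, (sys S).IsHS w → ∀ q₁ ≤ q', FMem w t q₁ →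
        FMem (Name.opair x w) e q₁ → FEq w y q₁) :
    (sys S).Forces (Fml.isTransversal (2 : Fin 3) 1 0)
      (Fin.cons t (Fin.cons e (Fin.cons r Fin.elim0))) s := by
  refine ⟨fun x hx => (E.F.imp _ _ _ _).mpr fun q hq hm => h1 x hx q hq hm,
    fun x hx => (E.F.imp _ _ _ _).mpr fun q hq hm => (E.F.ex _ _ _).mpr fun q₁ hq₁ => ?_⟩
  obtain ⟨q', hq', y, hy, ⟨h3, h4⟩, h5⟩ := h2 x hx q₁ (hq₁.trans hq) (E.B.memMono _ _ _ _ hm hq₁)
  have hv := hs_cons hy (hs_cons hx (hs_cons ht (hs_cons he (hs_cons hr (hs_elim0 (S := S))))))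
  refine ⟨q', hq', y, hy, ⟨h3, (E.T.relMem _ hv _ _ _ _).mpr h4⟩,
    fun w hw => (E.F.imp _ _ _ _).mpr fun q₂ hq₂ h6 => ?_⟩
  exact h5 w hw q₂ hq₂ h6.1 ((E.T.relMem _ (hs_cons hw hv) _ _ _ _).mp h6.2)

/-! ### the relation of a name `e` and its parts of stage `ν` -/

/-- the set of conditions forcing `(x, y) ∈ e` -/
def relSet (e : Name (P0 Q × TC S)) (x y : RN Q) : Set (P0 Q × RC S) :=
  {w | ∃ h : w.2 ∈ (CC (⊤ : Stg Q) : Set (RC S)), Rel S e x y (w.1, ⟨w.2, h⟩)}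

theorem reg_relSet (E : Env S) (e : Name (P0 Q × TC S)) (x y : RN Q) :
    RegB (⊤ : Stg Q) (relSet e x y) where
  sub := fun w hw => hw.1
  down := by
    rintro w ⟨hw, hr⟩ p hp c hc hwc
    exact ⟨hc, rel_mono E.B hr ⟨hp, hwc⟩⟩
  dense := by
    intro p c hc h
    refine ⟨hc, rel_dense E.B fun q hq => ?_⟩
    obtain ⟨p'', hp'', c'', hc'', hcc, hb, hrel⟩ := h q.1 hq.1 q.2.1 q.2.2 hq.2
    exact ⟨(p'', ⟨c'', hc''⟩), ⟨hp'', hcc⟩, hrel⟩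

theorem relSet_smul (E : Env S) {e : Name (P0 Q × TC S)} {g : Grp Q} (hg : FEq (act g e) e ⊤)
    {x y : RN Q} {w : P0 Q × RC S} (h : w ∈ relSet e x y) : g • w ∈ relSet e (g • x) (g • y) := by
  obtain ⟨h1, h2⟩ := h
  exact ⟨hG.out.cc ⊤ g w.2 h1, rel_act E.B E.F hg h2⟩

/-- the tail lemma for the relation of a name -/
theorem rel_tail (E : Env S) {e : Name (P0 Q × TC S)} {ν : Q.Lev} {z : Set (Idx Q)}
    (hz : z ⊆ below (ν : Stg Q)) (hinv : ∀ g : Grp Q, Fixes g z → FEq (act g e) e ⊤)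
    {x y : RN Q} {p : P0 Q} {c : RC S} (h : (p, c) ∈ relSet e x y) :
    (p, cut c ν) ∈ relSet e x y := by
  refine E.tail ⊤ ν _ (reg_relSet E e x y) (fun g hg w hw => ?_) p c h
  have h1 := relSet_smul E (hinv g fun i hi => hg i (hz hi)) hw
  obtain ⟨zx, -, hx1, hx2⟩ := E.R.over_univ x
  obtain ⟨zy, -, hy1, hy2⟩ := E.R.over_univ y
  rw [smul_eq_of_fixes E.R hx2 fun i hi => hg i (hx1 _ hi),
    smul_eq_of_fixes E.R hy2 fun i hi => hg i (hy1 _ hi)] at h1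
  exact h1

/-- the part of stage `ν` -/
def BBset (e : Name (P0 Q × TC S)) (ν : Q.Lev) (x y : RN Q) : Set (P0 Q × RC S) :=
  {w | w.2 ∈ (CC (ν : Stg Q) : Set (RC S)) ∧ w ∈ relSet e x y}

theorem sub_cut (E : Env S) {ν : Stg Q} {c c' : RC S} (hc : c ∈ (CC ν : Set (RC S)))
    (h : c ⊆ c') : c ⊆ cut c' ν := by
  intro t ht
  exact ⟨h ht, (mem_CC.mp hc).2.1 t ht⟩

theorem reg_BBset (E : Env S) (e : Name (P0 Q × TC S)) (ν : Q.Lev) (x y : RN Q) :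
    RegB (ν : Stg Q) (BBset e ν x y) where
  sub := fun w hw => hw.1
  down := by
    rintro w ⟨hw, hr⟩ p hp c hc hwc
    exact ⟨hc, (reg_relSet E e x y).down w hr p hp c (E.C.mono _ _ le_top hc) hwc⟩
  dense := by
    intro p c hc h
    refine ⟨hc, (reg_relSet E e x y).dense p c (E.C.mono _ _ le_top hc) fun p' hp' c' hc' hcc' => ?_⟩
    obtain ⟨p'', hp'', c'', hc'', hcc, -, hrel⟩ := h p' hp' (cut c' ν) (E.C.cut ⊤ ν c' hc')
      (sub_cut E hc hcc')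
    obtain ⟨h1, -⟩ := E.C.amalg ⊤ ν c' c'' hc' hc'' le_top hcc
    exact ⟨p'', hp'', c' ∪ c'', h1, Set.subset_union_left,
      (reg_relSet E e x y).down _ hrel p'' le_rfl _ h1 Set.subset_union_right⟩

/-- `A` is the name of `{y : (x, y) ∈ e}` -/
def IsA (e : Name (P0 Q × TC S)) (ν : Q.Lev) (x : RN Q) (A : S.U) : Prop :=
  SN ν A ∧ ∀ (y : RN Q) (p : P0 Q) (c : RC S), c ∈ (CC (ν : Stg Q) : Set (RC S)) →
    (FM (CC (ν : Stg Q)) y (S.G A) p c ↔ (p, c) ∈ relSet e x y)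

theorem exists_isA (E : Env S) {e : Name (P0 Q × TC S)} {ν : Q.Lev} {z : Set (Idx Q)}
    (hz : z ⊆ below (ν : Stg Q)) (hzc : #z ≤ Q.κ ν)
    (hinv : ∀ g : Grp Q, Fixes g z → FEq (act g e) e ⊤) (x : RN Q) : ∃ A, IsA e ν x A := by
  obtain ⟨zx, hx1, hx2, hx3⟩ := exists_supp E.R x ν
  obtain ⟨A, h1, -, h3⟩ := E.gen ν (fun y => BBset e ν x y) (fun y => reg_BBset E e ν x y)
    (fun y y' p c h hy => ⟨h.1, h.2.1, rel_congr E.B E.T h.2.2 (E.R.refl _ _) hy⟩) (z ∪ zx)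
    (Set.union_subset hz hx1) (mk_union_le_of (aleph0_le_kappa ν) hzc hx2)
    (fun g hg y w hw => by
      have h4 := relSet_smul E (hinv g fun i hi => hg i (Or.inl hi)) hw.2
      rw [smul_eq_of_fixes E.R hx3 fun i hi => hg i (Or.inr hi)] at h4
      exact ⟨hG.out.cc _ g _ hw.1, h4⟩)
  refine ⟨A, h1, fun y p c hc => (h3 y p c hc).trans ⟨fun h => h.2, fun h => ⟨hc, h⟩⟩⟩

theorem isA_smul (E : Env S) {e : Name (P0 Q × TC S)} {ν : Q.Lev} {g : Grp Q}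
    (hg : FEq (act g e) e ⊤) (hg' : FEq (act g⁻¹ e) e ⊤) {x : RN Q} {A : S.U}
    (h : IsA e ν x A) : IsA e ν (g • x) (g • A) := by
  refine ⟨hG.out.sn ν g A h.1, fun y p c hc => ⟨fun h1 => ?_, fun h1 => ?_⟩⟩
  · have h2 := hG.out.fm _ g⁻¹ _ _ _ _ h1
    rw [S.G_smul, inv_smul_smul] at h2
    have h3 := (h.2 _ _ _ (hG.out.cc _ g⁻¹ _ hc)).mp h2
    have h4 := relSet_smul E hg h3
    rw [smul_inv_smul] at h4
    have h5 : g • ((g⁻¹ • p, g⁻¹ • c) : P0 Q × RC S) = (p, c) :=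
      Prod.ext (smul_inv_smul g p) (smul_inv_smul g c)
    rwa [h5] at h4
  · have h2 := relSet_smul E hg' h1
    rw [inv_smul_smul] at h2
    have h3 := (h.2 _ _ _ (hG.out.cc _ g⁻¹ _ hc)).mpr h2
    have h4 := hG.out.fm _ g _ _ _ _ h3
    rwa [smul_inv_smul, smul_inv_smul, smul_inv_smul, ← S.G_smul] at h4

/-! ### the transversal -/

/-- the name of the transversal -/
def trName (e : Name (P0 Q × TC S)) (ν : Q.Lev) (l : Lab Q) : Name (P0 Q × TC S) :=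
  Name.mk {w : RN Q × TC S // ∃ x A, IsA e ν x A ∧ (A, l, w.1) ∈ w.2.1}
    (fun w => xh S w.1.1) (fun w => (⊤, w.1.2))

theorem fmem_trName (E : Env S) {e : Name (P0 Q × TC S)} {ν : Q.Lev} {l : Lab Q} {x v : RN Q}
    {A : S.U} (hA : IsA e ν x A) {s : P0 Q × TC S} (h : (A, l, v) ∈ s.2.1) :
    FMem (xh S v) (trName e ν l) s :=
  E.B.elem _ (fun w : {w : RN Q × TC S // ∃ x A, IsA e ν x A ∧ (A, l, w.1) ∈ w.2.1} => xh S w.1.1)
    (fun w => ((⊤, w.1.2) : P0 Q × TC S)) ⟨(v, s.2), x, A, hA, h⟩ s ⟨le_top, le_rfl⟩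

theorem isHS_trName (E : Env S) {e : Name (P0 Q × TC S)} {ν : Q.Lev} {z : Set (Idx Q)}
    (hz : z ⊆ below (ν : Stg Q)) (hzc : #z ≤ Q.κ ν)
    (hinv : ∀ g : Grp Q, Fixes g z → FEq (act g e) e ⊤) (l : Lab Q) :
    (sys S).IsHS (trName e ν l) := by
  obtain ⟨μ, hμ⟩ := Q.lev_bdd {ν, l.1} (Set.toFinite _).countable
  have hν : ν < μ := hμ ν (by simp)
  have hl : l.1 < μ := hμ l.1 (by simp)
  have hH : fixG (z ∪ {lab l}) ∈ (sys S).F := by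
    refine ⟨μ, z ∪ {lab l}, Set.union_subset
      (hz.trans (below_mono (WithTop.coe_le_coe.mpr hν.le))) ?_, ?_, le_rfl⟩
    · rintro _ rfl ξ hξ
      have : l.1 = ξ := Option.some.inj hξ
      rw [← this]
      exact WithTop.coe_lt_coe.mpr hl
    · exact mk_union_le_of (aleph0_le_kappa μ) (hzc.trans (kappa_mono hν.le))
        (mk_countable_le (aleph0_le_kappa μ) (Set.countable_singleton _))
  refine isHS_of E.B E.F (fun w => isHS_xh E.B E.F E.R w.1.1) hH fun g hg w => ?_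
  have hgz : Fixes g z := fun i hi => hg i (Or.inl hi)
  have hgl : g • l = l := by
    have h1 : g • lab l = lab l := hg _ (Or.inr rfl)
    have h2 := congrArg Prod.snd h1
    exact Prod.ext rfl h2
  obtain ⟨⟨v, d⟩, x, A, hA, hw⟩ := w
  have h1 : IsA e ν (g • x) (g • A) :=
    isA_smul E (hinv g hgz) (hinv g⁻¹ (fixes_inv hgz)) hA
  have h2 : (g • A, l, g • v) ∈ (g • ((⊤, d) : P0 Q × TC S)).2.1 := by
    have h3 : g • ((A, l, v) : Trip S) ∈ g • d.1 := Set.smul_mem_smul_set hw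
    have h4 : g • ((A, l, v) : Trip S) = (g • A, l, g • v) := Prod.ext rfl (Prod.ext hgl rfl)
    rw [h4] at h3
    exact h3
  have h3 := fmem_trName E (l := l) h1 h2
  exact E.B.memCongr _ _ _ _ _ (E.B.symm _ _ _ (act_xh E.B E.F g v _)) (E.B.refl _ _) h3

/-- the value of the choice function is in the class -/
theorem rel_value (E : Env S) {e : Name (P0 Q × TC S)} {ν : Q.Lev} {i₀ : Q.Ω} {z : Set (Idx Q)}
    (hz : z ⊆ below (ν : Stg Q)) (hinv : ∀ g : Grp Q, Fixes g z → FEq (act g e) e ⊤)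
    {x v : RN Q} {A : S.U} (hA : IsA e ν x A) {s : P0 Q × TC S} (h : (A, (ν, i₀), v) ∈ s.2.1)
    (hxx : Rel S e x x s) : Rel S e x v s := by
  have h1 : (s.1, cut s.2.1 ν) ∈ relSet e x x := rel_tail E hz hinv ⟨s.2.2, hxx⟩
  have hc := E.C.cut ⊤ ν s.2.1 s.2.2
  have h2 := (hA.2 x s.1 _ hc).mpr h1
  have h3 := ((mem_CC.mp s.2.2).2.2 ν (WithTop.coe_lt_top ν)).mem _ h rfl s.1 _ hc Subset.rfl x h2
  have h4 := (hA.2 v s.1 _ hc).mp h3
  obtain ⟨_, h5⟩ := (reg_relSet E e x v).down _ h4 s.1 le_rfl s.2.1 s.2.2 (fun t ht => ht.1)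
  exact h5

/-- uniqueness -/
theorem value_unique (E : Env S) {e : Name (P0 Q × TC S)} {ν : Q.Lev} {i₀ : Q.Ω}
    {z : Set (Idx Q)} (hz : z ⊆ below (ν : Stg Q))
    (hinv : ∀ g : Grp Q, Fixes g z → FEq (act g e) e ⊤) {s₀ : P0 Q × TC S} (he : IsE e s₀)
    {x x' v v' : RN Q} {A A' : S.U} (hA : IsA e ν x A) (hA' : IsA e ν x' A')
    {s : P0 Q × TC S} (hs : s ≤ s₀) (h : (A, (ν, i₀), v) ∈ s.2.1) (h' : (A', (ν, i₀), v') ∈ s.2.1)
    (hxx : Rel S e x x' s) : v.Feq v' s.1 := by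
  have hc := E.C.cut ⊤ ν s.2.1 s.2.2
  refine ((mem_CC.mp s.2.2).2.2 ν (WithTop.coe_lt_top ν)).fn _ h _ h' rfl rfl s.1 _ hc Subset.rfl ?_
  have key : ∀ (y y' : RN Q) (B B' : S.U), IsA e ν y B → IsA e ν y' B' → Rel S e y' y s →
      ∀ p' ≤ s.1, ∀ c' ∈ (CC (ν : Stg Q) : Set (RC S)), cut s.2.1 ν ⊆ c' → ∀ w : RN Q,
        FM (CC (ν : Stg Q)) w (S.G B) p' c' → FM (CC (ν : Stg Q)) w (S.G B') p' c' := by
    intro y y' B B' hB hB' hyy p' hp' c' hc' hcc' w hw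
    have h1 := (hB.2 w p' c' hc').mp hw
    obtain ⟨h2, h3⟩ := E.C.amalg ⊤ ν s.2.1 c' s.2.2 hc' le_top hcc'
    obtain ⟨h4, h5⟩ := (reg_relSet E e y w).down _ h1 p' le_rfl _ h2 Set.subset_union_right
    have hle : ((p', ⟨s.2.1 ∪ c', h4⟩) : P0 Q × TC S) ≤ s := ⟨hp', Set.subset_union_left⟩
    have h6 := he.trans y' y w _ (hle.trans hs) (rel_mono E.B hyy hle) h5
    have h7 : (p', cut (s.2.1 ∪ c') ν) ∈ relSet e y' w := rel_tail E hz hinv ⟨h4, h6⟩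
    rw [h3] at h7
    exact (hB'.2 w p' c' hc').mpr h7
  intro p' hp' c' hc' hcc' w
  exact ⟨key x x' A A' hA hA' (he.symm _ _ _ hs hxx) p' hp' c' hc' hcc' w,
    key x' x A' A hA' hA hxx p' hp' c' hc' hcc' w⟩

theorem forces_transversal (E : Env S) {r e : Name (P0 Q × TC S)} {s₀ : P0 Q × TC S}
    (hr : (sys S).IsHS r) (he : (sys S).IsHS e) (hR : IsR r s₀) (hE : IsE e s₀) :
    ∃ t, (sys S).IsHS t ∧ (sys S).Forces (Fml.isTransversal (2 : Fin 3) 1 0)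
      (Fin.cons t (Fin.cons e (Fin.cons r Fin.elim0))) s₀ := by
  obtain ⟨H, ⟨ν, z, hz, hzc, hzH⟩, hsym⟩ := isHS_sym he
  have hinv : ∀ g : Grp Q, Fixes g z → FEq (act g e) e ⊤ := fun g hg => hsym g (hzH hg)
  have hΩ : Nonempty Q.Ω := by
    rw [← Cardinal.mk_ne_zero_iff]
    exact (lt_of_le_of_lt zero_le Q.K_lt).ne'
  obtain ⟨i₀⟩ := hΩ
  have htHS := isHS_trName E hz hzc hinv (ν, i₀)
  refine ⟨trName e ν (ν, i₀), htHS, isTransversal_of E hr he htHS ?_ ?_⟩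
  · intro x hx q hq hm
    refine E.B.memDense _ _ _ fun q' hq' => ?_
    obtain ⟨q₁, hq₁, w, -, hxw⟩ := hm q' hq'
    refine ⟨q₁, hq₁, E.B.memCongr _ _ _ _ _ (E.B.symm _ _ _ hxw) (E.B.refl _ _) ?_⟩
    exact hR.mem_xh E hr _ q₁ ((hq₁.trans hq').trans hq)
  · intro y hy q hq hm
    obtain ⟨q₁, hq₁, x, hx⟩ := hR.exists_xh E hr y hy q hq hm
    obtain ⟨A, hA⟩ := exists_isA E hz hzc hinv x
    obtain ⟨c', hc', hcc', v, hv⟩ := E.tot ⊤ q₁.2.1 q₁.2.2 A (ν, i₀) (WithTop.coe_lt_top ν) hA.1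
    let q₂ : P0 Q × TC S := (q₁.1, ⟨c', hc'⟩)
    have hq₂ : q₂ ≤ q₁ := ⟨le_rfl, hcc'⟩
    have hq₂s : q₂ ≤ s₀ := (hq₂.trans hq₁).trans hq
    have hxv : Rel S e x v q₂ := rel_value E hz hinv hA hv (hE.refl x q₂ hq₂s)
    have hyx : FEq y (xh S x) q₂ := E.B.mono _ _ _ _ hx hq₂
    refine ⟨q₂, hq₂.trans hq₁, xh S v, isHS_xh E.B E.F E.R v, ⟨fmem_trName E hA hv, ?_⟩, ?_⟩
    · exact E.B.memCongr _ _ _ _ _ (opair_congr E.B (E.B.symm _ _ _ hyx) (E.B.refl _ _))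
        (E.B.refl _ _) hxv
    · intro w hw q₃ hq₃ hwt hyw
      refine E.B.dense _ _ _ fun q₄ hq₄ => ?_
      obtain ⟨q₅, hq₅, ⟨⟨v', d'⟩, x', A', hA', hv'⟩, hd', hwv⟩ := hwt q₄ hq₄
      have h52 : q₅ ≤ q₂ := (hq₅.trans hq₄).trans hq₃
      have h5s : q₅ ≤ s₀ := h52.trans hq₂s
      refine ⟨q₅, hq₅, ?_⟩
      have h1 : (A, (ν, i₀), v) ∈ q₅.2.1 := h52.2 hv
      have h2 : (A', (ν, i₀), v') ∈ q₅.2.1 := hd'.2 hv'
      have h3 : Rel S e x' v' q₅ := rel_value E hz hinv hA' h2 (hE.refl x' q₅ h5s)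
      have h4 : Rel S e x v' q₅ := by
        refine E.B.memCongr _ _ _ _ _ (opair_congr E.B (E.B.mono _ _ _ _ hyx h52) hwv)
          (E.B.refl _ _) ?_
        exact E.B.memMono _ _ _ _ hyw (hq₅.trans hq₄)
      have h5 : Rel S e x x' q₅ := hE.trans _ _ _ _ h5s h4 (hE.symm _ _ _ h5s h3)
      have h6 : v.Feq v' q₅.1 := value_unique E hz hinv hE hA hA' h5s h1 h2 h5
      exact E.B.trans _ _ _ _ hwv ((feq_xh E.B E.T _ _).mpr (E.R.symm _ _ _ h6))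

/-- the continuum splitting property is forced -/
theorem forces_spr (E : Env S) (s : P0 Q × TC S) : (sys S).Forces Fml.spr Fin.elim0 s := by
  intro r hr
  rw [E.F.imp]
  intro q _ hR e he
  rw [E.F.imp]
  intro q₁ hq₁ hE
  have hR' : IsR r q₁ := E.F.mono _ _ _ _ hR hq₁
  rw [E.F.ex]
  intro q₂ hq₂
  obtain ⟨t, ht, h⟩ := forces_transversal E hr he (s₀ := q₂) (E.F.mono _ _ _ _ hR' hq₂)
    (isE_of E (E.F.mono _ _ _ _ hR' hq₂) hr he (E.F.mono _ _ _ _ hE hq₂))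
  exact ⟨q₂, le_rfl, t, ht, h⟩

end Pool.Agent.Helper64.SP
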