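import Pool.Agent.Helper64.SP.E3

/-!
# Module E, part 4: the reals are not well-orderable in the model
-/

namespace Pool.Agent.Helper64.SP

open Cardinal Set Pool.Agent.Helper46.SP Name
open scoped Pointwise

variable {Q : Par}

theorem perm_apply_inv {α : Type} (σ : Equiv.Perm α) (x : α) : σ (σ⁻¹ x) = x :=
  σ.apply_symm_apply x

/-! ### Cohen reals -/

/-- adding one value to a Cohen condition -/
noncomputable def P0set (p : P0 Q) (x : Q.Ω × ℕ) (b : Bool) : P0 Q where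
  val y := by classical exact if y = x then some b else p.val y
  fin := (p.fin.union (Set.finite_singleton x)).subset (fun y hy => by
    by_cases h : y = x
    · exact Or.inr h
    · left
      intro h'
      apply hy
      rw [if_neg h]
      exact h')

theorem P0set_self (p : P0 Q) (x : Q.Ω × ℕ) (b : Bool) : (P0set p x b).val x = some b := by
  unfold P0set
  exact if_pos rfl

theorem P0set_ne (p : P0 Q) {x y : Q.Ω × ℕ} (b : Bool) (h : y ≠ x) :
    (P0set p x b).val y = p.val y := by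
  unfold P0set
  exact if_neg h

theorem P0set_le (p : P0 Q) {x : Q.Ω × ℕ} (b : Bool) (h : p.val x = none) : P0set p x b ≤ p := by
  intro y c hy
  have hne : y ≠ x := by
    rintro rfl
    rw [h] at hy
    cases hy
  rw [P0set_ne p b hne]
  exact hy

/-- the Cohen real with index `i` -/
noncomputable def coh (i : Q.Ω) : RN Q where
  val n := {p | p.val (i, n) = some true}
  reg n p := by
    constructor
    · intro h q hq
      exact ⟨q, le_rfl, hq _ _ h⟩
    · intro h
      by_contra hne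
      replace hne : p.val (i, n) ≠ some true := hne
      rcases hv : p.val (i, n) with _ | b
      · obtain ⟨r, hr, hr'⟩ := h (P0set p (i, n) false) (P0set_le p false hv)
        have h1 := hr _ _ (P0set_self p (i, n) false)
        have h2 : r.val (i, n) = some true := hr'
        rw [h1] at h2
        cases h2
      · cases b with
        | true => exact hne hv
        | false =>
          obtain ⟨r, hr, hr'⟩ := h p le_rfl
          have h1 := hr _ _ hv
          have h2 : r.val (i, n) = some true := hr'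
          rw [h1] at h2
          cases h2
  supp := by
    refine ⟨{(none, i)}, Set.countable_singleton _, fun n p => ?_⟩
    have : (p.res {(none, i)}).val (i, n) = p.val (i, n) := by
      unfold P0.res
      exact if_pos rfl
    show p.val (i, n) = some true ↔ (p.res {(none, i)}).val (i, n) = some true
    rw [this]

theorem mem_coh {i : Q.Ω} {n : ℕ} {p : P0 Q} : p ∈ (coh i).val n ↔ p.val (i, n) = some true :=
  Iff.rfl

theorem smul_coh (g : Grp Q) (i : Q.Ω) : g • coh i = coh (g none i) := by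
  apply RN.ext
  funext n
  ext p
  rw [RN.smul_val, Set.mem_smul_set_iff_inv_smul_mem, mem_coh, mem_coh, P0.smul_val]
  have : ((g⁻¹ : Grp Q) none)⁻¹ i = g none i := by
    rw [Pi.inv_apply, inv_inv]
  rw [this]

theorem not_feq_coh {i j : Q.Ω} (h : i ≠ j) (p : P0 Q) : ¬ (coh i).Feq (coh j) p := by
  intro he
  have hfin : {n : ℕ | p.val (i, n) ≠ none ∨ p.val (j, n) ≠ none}.Finite := by
    have h1 : {n : ℕ | p.val (i, n) ≠ none}.Finite := by
      refine (p.fin.preimage (f := fun n : ℕ => (i, n)) ?_)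
      exact fun a _ b _ hab => (Prod.mk.inj hab).2
    have h2 : {n : ℕ | p.val (j, n) ≠ none}.Finite := by
      refine (p.fin.preimage (f := fun n : ℕ => (j, n)) ?_)
      exact fun a _ b _ hab => (Prod.mk.inj hab).2
    exact (h1.union h2).subset fun n hn => hn
  obtain ⟨n, hn⟩ := hfin.exists_notMem
  have hn1 : p.val (i, n) = none := by
    by_contra h1
    exact hn (Or.inl h1)
  have hn2 : p.val (j, n) = none := by
    by_contra h1
    exact hn (Or.inr h1)
  have hji : ((j, n) : Q.Ω × ℕ) ≠ (i, n) := fun h1 => h (Prod.mk.inj h1).1.symm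
  have h3 : P0set p (i, n) true ≤ p := P0set_le p true hn1
  have h4 : (P0set p (i, n) true).val (j, n) = none := by
    rw [P0set_ne p true hji]
    exact hn2
  have h5 := P0set_le (P0set p (i, n) true) (x := (j, n)) false h4
  have h6 : P0set (P0set p (i, n) true) (j, n) false ∈ (coh i).val n :=
    h5 _ _ (P0set_self p (i, n) true)
  have h7 := (he _ (h5.trans h3) n).mp h6
  rw [mem_coh, P0set_self] at h7
  cases h7

/-! ### the set of the Cohen reals outside of `Z` -/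

variable {S : CodeSys Q} [hG : Fact (GFacts S)]

variable (S) in
/-- the name of the set of the Cohen reals with index outside of `Z` -/
noncomputable def cohSet (Z : Set (Idx Q)) : Name (P0 Q × TC S) :=
  Name.mk {i : Q.Ω // ((none, i) : Idx Q) ∉ Z} (fun i => xh S (coh i.1)) (fun _ => ⊤)

omit hG in
theorem fmem_cohSet (hB : BasicEq (P0 Q × TC S)) {Z : Set (Idx Q)} {i : Q.Ω}
    (h : ((none, i) : Idx Q) ∉ Z) (s : P0 Q × TC S) : FMem (xh S (coh i)) (cohSet S Z) s :=
  hB.elem _ (fun i : {i : Q.Ω // ((none, i) : Idx Q) ∉ Z} => xh S (coh i.1))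
    (fun _ => (⊤ : P0 Q × TC S)) ⟨i, h⟩ s le_top

theorem isHS_cohSet (E : Env S) {ν : Q.Lev} {Z : Set (Idx Q)} (hZ : Z ⊆ below (ν : Stg Q))
    (hZc : #Z ≤ Q.κ ν) : (sys S).IsHS (cohSet S Z) := by
  have hH : fixG Z ∈ (sys S).F := ⟨ν, Z, hZ, hZc, le_rfl⟩
  refine isHS_of E.B E.F (fun i => isHS_xh E.B E.F E.R _) hH fun g hg i => ?_
  have h1 : ((none, g none i.1) : Idx Q) ∉ Z := by
    intro h
    have h2 := fixes_inv hg _ h
    have h3 : g⁻¹ • ((none, g none i.1) : Idx Q) = (none, i.1) :=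
      inv_smul_smul g ((none, i.1) : Idx Q)
    rw [h3] at h2
    exact i.2 (h2 ▸ h)
  have h2 := fmem_cohSet (S := S) E.B h1 (g • (⊤ : P0 Q × TC S))
  have h3 := act_xh E.B E.F g (coh i.1) (g • (⊤ : P0 Q × TC S))
  rw [smul_coh] at h3
  exact E.B.memCongr _ _ _ _ _ (E.B.symm _ _ _ h3) (E.B.refl _ _) h2

/-! ### well-orders -/

/-- the consequences of `s ⊩ w` well-orders the reals -/
structure IsW (r w : Name (P0 Q × TC S)) (s : P0 Q × TC S) : Prop where
  irr : ∀ (x : RN Q) (q : P0 Q × TC S), q ≤ s → ¬ Rel S w x x q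
  trans : ∀ (x y z : RN Q) (q : P0 Q × TC S), q ≤ s → Rel S w x y q → Rel S w y z q → Rel S w x z q
  least : ∀ a, (sys S).IsHS a → ∀ q ≤ s,
    (∀ x, (sys S).IsHS x → ∀ q₁ ≤ q, FMem x a q₁ → FMem x r q₁) →
    (∃ x, (sys S).IsHS x ∧ FMem x a q) →
    ∃ q' ≤ q, ∃ x, (sys S).IsHS x ∧ FMem x a q' ∧
      ∀ y, (sys S).IsHS y → ∀ q₁ ≤ q', FMem y a q₁ → ∀ q₂ ≤ q₁, ∃ q₃ ≤ q₂,
        FEq y x q₃ ∨ FMem (Name.opair x y) w q₃

theorem isW_of (E : Env S) {r w : Name (P0 Q × TC S)} {s : P0 Q × TC S} (h : IsR r s)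
    (hr : (sys S).IsHS r) (hw : (sys S).IsHS w)
    (h' : (sys S).Forces (Fml.isWellOrderOf (1 : Fin 2) 0) (Fin.cons w (Fin.cons r Fin.elim0)) s) :
    IsW r w s := by
  obtain ⟨h1, h2, -, h4⟩ := h'
  have hs : ∀ x : RN Q, (sys S).IsHS (xh S x) := isHS_xh E.B E.F E.R
  refine ⟨fun x q hq hxx => ?_, fun x y z q hq hxy hyz => ?_, fun a ha q hq hsub hne => ?_⟩
  · have h5 := (E.F.imp _ _ _ _).mp (h1 (xh S x) (hs x)) q hq (h.mem_xh E hr x q hq)
    exact h5 q le_rfl
      ((E.T.relMem _ (hs_cons (hs x) (hs_cons hw (hs_cons hr (hs_elim0 (S := S))))) _ _ _ _).mpr hxx)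
  · have h4 := (E.F.imp _ _ _ _).mp (h2 (xh S x) (hs x) (xh S y) (hs y) (xh S z) (hs z)) q hq
      (h.mem_xh E hr x q hq)
    have h5 := (E.F.imp _ _ _ _).mp h4 q le_rfl (h.mem_xh E hr y q hq)
    have h6 := (E.F.imp _ _ _ _).mp h5 q le_rfl (h.mem_xh E hr z q hq)
    have hv := hs_cons (hs z)
      (hs_cons (hs y) (hs_cons (hs x) (hs_cons hw (hs_cons hr (hs_elim0 (S := S))))))
    have h7 := (E.F.imp _ _ _ _).mp h6 q le_rfl ((E.T.relMem _ hv _ _ _ _).mpr hxy)
    have h8 := (E.F.imp _ _ _ _).mp h7 q le_rfl ((E.T.relMem _ hv _ _ _ _).mpr hyz)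
    exact (E.T.relMem _ hv _ _ _ _).mp h8
  · have h5 := (E.F.imp _ _ _ _).mp (h4 a ha) q hq fun x hx =>
      (E.F.imp _ _ _ _).mpr fun q₁ hq₁ hm => hsub x hx q₁ hq₁ hm
    obtain ⟨x, hx, hxa⟩ := hne
    have h6 := (E.F.imp _ _ _ _).mp h5 q le_rfl ((E.F.ex _ _ _).mpr fun q₁ hq₁ =>
      ⟨q₁, le_rfl, x, hx, E.B.memMono _ _ _ _ hxa hq₁⟩)
    obtain ⟨q', hq', y, hy, hya, h7⟩ := (E.F.ex _ _ _).mp h6 q le_rfl
    refine ⟨q', hq', y, hy, hya, fun u hu q₁ hq₁ hm q₂ hq₂ => ?_⟩
    have h8 := (E.F.imp _ _ _ _).mp (h7 u hu) q₁ hq₁ hm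
    obtain ⟨q₃, hq₃, h9⟩ := (E.F.or _ _ _ _).mp h8 q₂ hq₂
    refine ⟨q₃, hq₃, h9.imp (fun h10 => h10) fun h10 => ?_⟩
    exact (E.T.relMem _ (hs_cons hu (hs_cons hy (hs_cons ha (hs_cons hw
      (hs_cons hr (hs_elim0 (S := S))))))) _ _ _ _).mp h10

theorem not_isW (E : Env S) {r w : Name (P0 Q × TC S)} {s : P0 Q × TC S} (hR : IsR r s)
    (hr : (sys S).IsHS r) (hw : (sys S).IsHS w) (hW : IsW r w s) : False := by
  obtain ⟨H, ⟨ν, z, hz, hzc, hzH⟩, hsym⟩ := isHS_sym hw
  have hinv : ∀ g : Grp Q, Fixes g z → FEq (act g w) w ⊤ := fun g hg => hsym g (hzH hg)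
  have hκK : ∀ ξ, Q.κ ξ ≤ Q.K := Q.κ_le_K
  obtain ⟨zp, hzp1, hzp2, hzp3⟩ := E.P.fin_supp s.1
  -- a closed condition below `s`
  obtain ⟨d, Y, hdY, hsd, hd, hYY, -⟩ := E.dense ⊤ s.2.1 (z ∪ zp) s.2.2
    (fun i _ => below_top i) (mk_union_le_of aleph0_le_K (hzc.trans (hκK ν))
      (mk_countable_le aleph0_le_K hzp1.countable))
  have hcl := E.O.closedCut ν d Y hdY
  obtain ⟨Z, hzZ, hZY, hZc, hZd⟩ := E.hull ν (cut d ν) (Y ∩ below ν) (z ∪ zp) hcl
    Set.inter_subset_right (Set.subset_inter hYY (Set.union_subset hz (hzp2 _)))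
    (mk_union_le_of (aleph0_le_kappa ν) hzc (mk_countable_le (aleph0_le_kappa ν) hzp1.countable))
  have hfZ : Closed (rst (cut d ν) Z) Z := E.res ν (cut d ν) (Y ∩ below ν) hcl
    Set.inter_subset_right Z hZY hZd
  set f : RC S := rst (cut d ν) Z with hf
  have hfd : f ⊆ d := (E.O.rstSub _ _).trans fun t ht => ht.1
  have hZν : Z ⊆ below (ν : Stg Q) := hZY.trans Set.inter_subset_right
  have hZK : #Z ≤ Q.K := hZc.trans (hκK ν)
  have hHS := isHS_cohSet (S := S) E hZν hZc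
  -- an index outside of `Z`
  have hex : ∃ i : Q.Ω, ((none, i) : Idx Q) ∉ Z := by
    by_contra hcon
    push Not at hcon
    have h1 : #Q.Ω ≤ #Z := by
      refine Cardinal.mk_le_of_injective (f := fun i : Q.Ω => (⟨(none, i), hcon i⟩ : Z)) ?_
      intro a b hab
      exact (Prod.mk.inj (Subtype.mk.inj hab)).2
    exact absurd (h1.trans hZK) (not_le_of_gt Q.K_lt)
  let s₁ : P0 Q × TC S := (s.1, ⟨d, hd⟩)
  have hs₁ : s₁ ≤ s := ⟨le_rfl, hsd⟩
  -- the least element
  obtain ⟨q', hq', x, hx, hxa, hleast⟩ := hW.least (cohSet S Z) hHS s₁ hs₁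
    (fun y hy q₁ hq₁ hm => by
      refine E.B.memDense _ _ _ fun q₂ hq₂ => ?_
      obtain ⟨q₃, hq₃, i, -, hi⟩ := hm q₂ hq₂
      refine ⟨q₃, hq₃, E.B.memCongr _ _ _ _ _ (E.B.symm _ _ _ hi) (E.B.refl _ _) ?_⟩
      exact hR.mem_xh E hr _ q₃ (((hq₃.trans hq₂).trans hq₁).trans hs₁))
    (by
      obtain ⟨i, hi⟩ := hex
      exact ⟨_, isHS_xh E.B E.F E.R _, fmem_cohSet E.B hi _⟩)
  obtain ⟨q, hq, ⟨i, hi⟩, -, hxi⟩ := hxa q' le_rfl
  replace hxi : FEq x (xh S (coh i)) q := hxi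
  have hqs : q ≤ s := (hq.trans hq').trans hs₁
  have hrel : ∀ j : Q.Ω, ((none, j) : Idx Q) ∉ Z → j ≠ i → Rel S w (coh i) (coh j) q := by
    intro j hj hji
    refine rel_dense E.B fun q₁ hq₁ => ?_
    obtain ⟨q₃, hq₃, h1 | h1⟩ := hleast (xh S (coh j)) (isHS_xh E.B E.F E.R _) q₁ (hq₁.trans hq)
      (fmem_cohSet E.B hj _) q₁ le_rfl
    · exfalso
      have h2 := E.B.trans _ _ _ _ h1 (E.B.mono _ _ _ _ hxi (hq₃.trans hq₁))
      exact not_feq_coh hji _ ((feq_xh E.B E.T _ _).mp h2)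
    · refine ⟨q₃, hq₃, E.B.memCongr _ _ _ _ _ (opair_congr E.B
        (E.B.mono _ _ _ _ hxi (hq₃.trans hq₁)) (E.B.refl _ _)) (E.B.refl _ _) h1⟩
  -- a closed condition below `q`
  obtain ⟨zq, hzq1, hzq2, hzq3⟩ := E.P.fin_supp q.1
  obtain ⟨d', Y', hdY', hqd', hd', hYY', -⟩ := E.dense ⊤ q.2.1 (Z ∪ ({(none, i)} ∪ zq)) q.2.2
    (fun i _ => below_top i) (mk_union_le_of aleph0_le_K hZK
      (mk_countable_le aleph0_le_K ((Set.countable_singleton _).union hzq1.countable)))
  have hZY' : Z ⊆ Y' := Set.subset_union_left.trans hYY'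
  have hiY' : ((none, i) : Idx Q) ∈ Y' := hYY' (Or.inr (Or.inl rfl))
  have hqY' : zq ⊆ Y' := fun k hk => hYY' (Or.inr (Or.inr hk))
  obtain ⟨g, hgZ, hgf⟩ := E.perm.fresh Y' Y' Z hdY'.card hdY'.card hZY'
  have hgZ' : g • Z = Z := by
    ext k
    constructor
    · rintro ⟨l, hl, rfl⟩
      show g • l ∈ Z
      rw [hgZ l hl]
      exact hl
    · intro hk
      exact ⟨k, hk, hgZ k hk⟩
  have hint : Y' ∩ g • Y' = Z := by
    ext k
    constructor
    · rintro ⟨hk, l, hl, rfl⟩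
      by_cases hlZ : l ∈ Z
      · show g • l ∈ Z
        rw [hgZ l hlZ]
        exact hlZ
      · exact absurd hk (hgf l hl hlZ)
    · intro hk
      exact ⟨hZY' hk, k, hZY' hk, hgZ k hk⟩
  have hffix : g • f = f := by
    have h1 := E.O.coverCongr g 1 f Z hfZ.ovr fun k hk => by rw [hgZ k hk, one_smul]
    rwa [one_smul] at h1
  have hfd' : f ⊆ d' := (hfd.trans (hq.trans hq').2).trans hqd'
  have hfgd' : f ⊆ g • d' := by
    have h1 : g • f ⊆ g • d' := Set.smul_set_mono hfd'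
    rwa [hffix] at h1
  -- the union
  have hU : (⋃ b : Bool, (cond b d' (g • d') : RC S)) ∈ (CC (⊤ : Stg Q) : Set (RC S)) := by
    refine E.ma Bool (fun b => cond b d' (g • d')) (fun b => cond b Y' (g • Y')) ?_ ?_ ?_
    · intro b
      cases b with
      | true => exact hdY'
      | false => exact E.O.closedSmul g d' Y' hdY'
    · intro b k _
      exact below_top k
    · intro a b hab
      cases a with
      | true =>
        cases b with
        | true => exact absurd rfl hab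
        | false =>
          refine ⟨f, hfd', hfgd', ?_⟩
          show Closed f (Y' ∩ g • Y')
          rw [hint]
          exact hfZ
      | false =>
        cases b with
        | true =>
          refine ⟨f, hfgd', hfd', ?_⟩
          show Closed f (g • Y' ∩ Y')
          rw [Set.inter_comm, hint]
          exact hfZ
        | false => exact absurd rfl hab
  have hU1 : d' ⊆ ⋃ b : Bool, (cond b d' (g • d') : RC S) :=
    Set.subset_iUnion (fun b : Bool => (cond b d' (g • d') : RC S)) true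
  have hU2 : g • d' ⊆ ⋃ b : Bool, (cond b d' (g • d') : RC S) :=
    Set.subset_iUnion (fun b : Bool => (cond b d' (g • d') : RC S)) false
  -- the Cohen conditions are compatible
  have hpY' : q.1.res Y' = q.1 := E.P.res_eq_of q.1 zq Y' hzq3 hqY'
  have hgpY' : (g • q.1).res (g • Y') = g • q.1 := by
    rw [E.P.smul_res, hpY']
  have hcomp : q.1.Compat (g • q.1) := by
    refine E.P.compat_over q.1 (g • q.1) Y' (g • Y') hpY' hgpY' ?_
    rw [hint]
    have h1 : (g • q.1).res Z = q.1.res Z := by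
      have h2 := E.P.smul_res g q.1 Z
      rw [hgZ'] at h2
      rw [h2]
      have h3 := E.P.smul_congr g 1 (q.1.res Z) Z
        (by rw [E.P.res_res, Set.inter_self]) fun k hk => by rw [hgZ k hk, one_smul]
      rwa [one_smul] at h3
    rw [h1]
    intro y b b' h h'
    rw [h] at h'
    exact Option.some.inj h'
  obtain ⟨p₂, hp₂, hp₂'⟩ := (E.P.compat_iff _ _).mp hcomp
  let t : P0 Q × TC S := (p₂, ⟨_, hU⟩)
  let s₂ : P0 Q × TC S := (q.1, ⟨d', hd'⟩)
  have hs₂ : s₂ ≤ q := ⟨le_rfl, hqd'⟩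
  have ht1 : t ≤ s₂ := ⟨hp₂, hU1⟩
  have ht2 : t ≤ g • s₂ := ⟨hp₂', hU2⟩
  have htq : t ≤ q := ht1.trans hs₂
  -- the two indices
  have hj : ((none, g none i) : Idx Q) ∉ Y' := hgf (none, i) hiY' hi
  have hji : g none i ≠ i := by
    intro h
    rw [h] at hj
    exact hj hiY'
  have h1 : Rel S w (coh i) (coh (g none i)) t :=
    rel_mono E.B (hrel _ (fun h => hj (hZY' h)) hji) htq
  have hj' : ((none, (g none)⁻¹ i) : Idx Q) ∉ Z := by
    intro h
    have h2 := hgZ _ h
    have h3 : g • ((none, (g none)⁻¹ i) : Idx Q) = (none, i) :=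
      Prod.ext rfl (perm_apply_inv (g none) i)
    rw [h3] at h2
    rw [← h2] at h
    exact hi h
  have hji' : (g none)⁻¹ i ≠ i := by
    intro h
    apply hji
    have h2 := congrArg (g none) h
    rw [perm_apply_inv] at h2
    exact h2.symm
  have h2 : Rel S w (coh i) (coh ((g none)⁻¹ i)) s₂ := rel_mono E.B (hrel _ hj' hji') hs₂
  have h3 := rel_act E.B E.F (hinv g fun k hk => hgZ k (hzZ (Or.inl hk))) h2
  rw [smul_coh, smul_coh, perm_apply_inv] at h3
  have h4 : Rel S w (coh (g none i)) (coh i) t := rel_mono E.B h3 ht2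
  exact hW.irr (coh i) t (htq.trans hqs) (hW.trans _ _ _ t (htq.trans hqs) h1 h4)

/-- the reals are not well-orderable in the model -/
theorem forces_not_wor (E : Env S) (s : P0 Q × TC S) :
    (sys S).Forces (Fml.neg Fml.wor) Fin.elim0 s := by
  intro q _ hwor
  obtain ⟨q₁, -, r, hr, hR, h1⟩ := (E.F.ex _ _ _).mp hwor q le_rfl
  obtain ⟨q₂, hq₂, w, hw, h2⟩ := (E.F.ex _ _ _).mp h1 q₁ le_rfl
  have hR' : IsR r q₂ := E.F.mono _ _ _ _ hR hq₂
  exact not_isW E hR' hr hw (isW_of E hR' hr hw h2)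

end Pool.Agent.Helper64.SP
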