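import Pool.Agent.Helper64.SP.E4
import Pool.Agent.Helper64.SP.C0
import Pool.Agent.Helper94.SP.B1
import Pool.Agent.Helper94.SP.B2

/-!
# Module E, part 5: the final deduction
-/

namespace Pool.Agent.Helper64.SP

open Cardinal Set Pool.Agent.Helper46.SP Name

/-- The final deduction from the modules. -/
theorem goal_of (hpar : ST_par) (hcodes : ST_codes) (hccc : ST_P0ccc) (hperm : ST_perm)
    (hP : ST_P0) (hRN : ST_RN) (hc : ST_cfacts) (hg : ST_gfacts) (ho : ST_ofacts)
    (htail : ST_tail) (htot : ST_tot) (hdense : ST_dense) (hhull : ST_hull) (hcore : ST_core)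
    (hset : ST_setFacts.{0}) (hmodel : ST_model.{0}) (hdc : ST_dc.{0}) (hreals : ST_reals.{0}) :
    Goal := by
  obtain ⟨Q⟩ := hpar
  obtain ⟨S⟩ := hcodes Q
  haveI hG : Fact (GFacts S) := ⟨hg Q S⟩
  have hGP : GoodProd (P0 Q) (TC S) (Grp Q) (sys S) := goodProd S (hccc Q) (hc Q S) (hP Q)
  have E : Env S :=
    { B := Pool.Agent.Helper94.SP.st_B1 _
      F := Pool.Agent.Helper94.SP.st_B2 _ _ _
      T := hset _ _ _
      C := hc Q S
      O := ho Q S
      P := hP Q
      R := hRN Q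
      perm := hperm Q
      GP := hGP
      reals := hreals
      tail := htail Q S
      tot := htot Q S
      dense := hdense Q S
      hull := hhull Q S
      ma := ((hcore Q S).1 ⊤).1
      res := fun ζ => ((hcore Q S).1 ζ).2.2
      gen := fun ζ => ((hcore Q S).2 ζ).1 }
  obtain ⟨M, R, hZF, hsat⟩ := hmodel (P0 Q × TC S) (Grp Q) (sys S) ⊤
  obtain ⟨h1, h2, h3⟩ := st_macros M R
  exact ⟨M, R, hZF, h3.mp (hsat _ (hdc _ _ _ (sys S) hGP ⊤)), h1.mp (hsat _ (forces_spr E ⊤)),
    fun h => hsat _ (forces_not_wor E ⊤) (h2.mpr h)⟩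

end Pool.Agent.Helper64.SP
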